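import Mathlib

/-!
# Averages over words, uniform measures on finite sets
-/

namespace Pool.Agent.Helper556_sys

section Avg

variable {X E : Type*} [NormedAddCommGroup E] [NormedSpace ℝ E]

/-- Average over the words of length `t` in the maps `a`, `b`, applied after `F`. -/
noncomputable def Ex (a b : X → X) (g : (X → X) → E) : ℕ → (X → X) → E
  | 0, F => g F
  | t + 1, F => (1 / 2 : ℝ) • (Ex a b g t (a ∘ F) + Ex a b g t (b ∘ F))

theorem Ex_sum_le {a b : X → X} {bad D : (X → X) → ℝ} (h0 : ∀ F, 0 ≤ D F)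
    (h : ∀ F, bad F + D (a ∘ F) + D (b ∘ F) ≤ 2 * D F) :
    ∀ (M : ℕ) (F : X → X), ∑ t ∈ Finset.range M, Ex a b bad t F ≤ 2 * D F := by
  intro M
  induction M with
  | zero =>
    intro F
    simp only [Finset.range_zero, Finset.sum_empty]
    have := h0 F
    linarith
  | succ M ih =>
    intro F
    rw [Finset.sum_range_succ']
    have h1 : ∑ t ∈ Finset.range M, Ex a b bad (t + 1) F =
        (1 / 2) * (∑ t ∈ Finset.range M, Ex a b bad t (a ∘ F) +
          ∑ t ∈ Finset.range M, Ex a b bad t (b ∘ F)) := by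
      rw [← Finset.sum_add_distrib, Finset.mul_sum]
      refine Finset.sum_congr rfl fun t _ => ?_
      simp only [Ex, smul_eq_mul]
    rw [h1]
    have h2 := ih (a ∘ F)
    have h3 := ih (b ∘ F)
    have h4 := h F
    simp only [Ex]
    linarith

theorem Ex_norm_le {a b : X → X} {g h : (X → X) → E} {c : (X → X) → ℝ}
    {P : (X → X) → Prop} (hP : ∀ F, P F → P (a ∘ F) ∧ P (b ∘ F))
    (hgh : ∀ F, P F → ‖g F - h F‖ ≤ c F) :
    ∀ (t : ℕ) (F : X → X), P F → ‖Ex a b g t F - Ex a b h t F‖ ≤ Ex a b c t F := by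
  intro t
  induction t with
  | zero =>
    intro F hF
    exact hgh F hF
  | succ t ih =>
    intro F hF
    simp only [Ex, smul_eq_mul]
    rw [← smul_sub]
    have h1 := ih (a ∘ F) (hP F hF).1
    have h2 := ih (b ∘ F) (hP F hF).2
    have h3 : Ex a b g t (a ∘ F) + Ex a b g t (b ∘ F) -
        (Ex a b h t (a ∘ F) + Ex a b h t (b ∘ F)) =
        (Ex a b g t (a ∘ F) - Ex a b h t (a ∘ F)) +
          (Ex a b g t (b ∘ F) - Ex a b h t (b ∘ F)) := by abel
    rw [h3, norm_smul]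
    have h4 := norm_add_le (Ex a b g t (a ∘ F) - Ex a b h t (a ∘ F))
      (Ex a b g t (b ∘ F) - Ex a b h t (b ∘ F))
    have h5 : ‖(1 / 2 : ℝ)‖ = 1 / 2 := by
      rw [Real.norm_eq_abs, abs_of_pos (by norm_num)]
    rw [h5]
    linarith

theorem Ex_affine {a b : X → X} (bad : (X → X) → ℝ) (c e : ℝ) :
    ∀ (t : ℕ) (F : X → X), Ex a b (fun F => c + e * bad F) t F = c + e * Ex a b bad t F := by
  intro t
  induction t with
  | zero =>
    intro F
    rfl
  | succ t ih =>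
    intro F
    simp only [Ex, smul_eq_mul, ih]
    ring

theorem Ex_mem {a b : X → X} {g : (X → X) → E} {S : Set E} (hS : Convex ℝ S)
    {Q : ℕ → (X → X) → Prop} (hQ : ∀ n F, Q n F → Q (n + 1) (a ∘ F) ∧ Q (n + 1) (b ∘ F))
    {m : ℕ} (hg : ∀ n F, n ≤ m → Q n F → g F ∈ S) :
    ∀ (t n : ℕ) (F : X → X), n + t ≤ m → Q n F → Ex a b g t F ∈ S := by
  intro t
  induction t with
  | zero =>
    intro n F hn hF
    exact hg n F (by omega) hF
  | succ t ih =>
    intro n F hn hF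
    simp only [Ex]
    have h1 := ih (n + 1) (a ∘ F) (by omega) (hQ n F hF).1
    have h2 := ih (n + 1) (b ∘ F) (by omega) (hQ n F hF).2
    rw [smul_add]
    exact hS h1 h2 (by norm_num) (by norm_num) (by norm_num)

end Avg

section Mu

variable {X E : Type*} [NormedAddCommGroup E] [NormedSpace ℝ E]

/-- The uniform average of `δ` over a finite set. -/
noncomputable def mu (δ : X → E) (A : Finset X) : E := (A.card : ℝ)⁻¹ • ∑ v ∈ A, δ v

theorem mu_sub_le {δ : X → E} (hδ : ∀ v, ‖δ v‖ ≤ 1) {A C : Finset X} (h : A ⊆ C)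
    (hA : A.Nonempty) : ‖mu δ A - mu δ C‖ ≤ 2 * (1 - (A.card : ℝ) / C.card) := by
  classical
  have hapos : (0 : ℝ) < A.card := by exact_mod_cast hA.card_pos
  have hle : (A.card : ℝ) ≤ C.card := by exact_mod_cast Finset.card_le_card h
  have hcpos : (0 : ℝ) < C.card := lt_of_lt_of_le hapos hle
  have h1 : mu δ A - mu δ C = ((A.card : ℝ)⁻¹ - (C.card : ℝ)⁻¹) • ∑ v ∈ A, δ v -
      (C.card : ℝ)⁻¹ • ∑ v ∈ C \ A, δ v := by
    unfold mu
    rw [← Finset.sum_sdiff h, smul_add, sub_smul]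
    abel
  have h2 : ‖∑ v ∈ A, δ v‖ ≤ A.card := by
    calc ‖∑ v ∈ A, δ v‖ ≤ ∑ v ∈ A, ‖δ v‖ := norm_sum_le _ _
      _ ≤ ∑ _v ∈ A, (1 : ℝ) := Finset.sum_le_sum fun v _ => hδ v
      _ = A.card := by simp
  have h3 : ‖∑ v ∈ C \ A, δ v‖ ≤ (C.card : ℝ) - A.card := by
    calc ‖∑ v ∈ C \ A, δ v‖ ≤ ∑ v ∈ C \ A, ‖δ v‖ := norm_sum_le _ _
      _ ≤ ∑ _v ∈ C \ A, (1 : ℝ) := Finset.sum_le_sum fun v _ => hδ v
      _ = (C \ A).card := by simp
      _ = (C.card : ℝ) - A.card := by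
        rw [Finset.card_sdiff_of_subset h, Nat.cast_sub (Finset.card_le_card h)]
  have h4 : 0 ≤ (A.card : ℝ)⁻¹ - (C.card : ℝ)⁻¹ := by
    have := inv_anti₀ hapos hle
    linarith
  have h5 : 0 < (C.card : ℝ)⁻¹ := inv_pos.2 hcpos
  rw [h1]
  calc ‖((A.card : ℝ)⁻¹ - (C.card : ℝ)⁻¹) • ∑ v ∈ A, δ v - (C.card : ℝ)⁻¹ • ∑ v ∈ C \ A, δ v‖
      ≤ ‖((A.card : ℝ)⁻¹ - (C.card : ℝ)⁻¹) • ∑ v ∈ A, δ v‖ +
        ‖(C.card : ℝ)⁻¹ • ∑ v ∈ C \ A, δ v‖ := norm_sub_le _ _
    _ ≤ ((A.card : ℝ)⁻¹ - (C.card : ℝ)⁻¹) * A.card + (C.card : ℝ)⁻¹ * ((C.card : ℝ) - A.card) := by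
        rw [norm_smul, norm_smul, Real.norm_of_nonneg h4, Real.norm_of_nonneg h5.le]
        gcongr
    _ = 2 * (1 - (A.card : ℝ) / C.card) := by
        field_simp
        ring

theorem one_sub_div_le_log {a c : ℝ} (ha : 0 < a) (hc : 0 < c) :
    1 - a / c ≤ Real.log c - Real.log a := by
  have h1 := Real.log_le_sub_one_of_pos (div_pos ha hc)
  rw [Real.log_div ha.ne' hc.ne'] at h1
  linarith

theorem sum_two_step (L : ℕ → ℝ) (K : ℕ) :
    ∑ i ∈ Finset.range K, (L (i + 2) - L i) = L (K + 1) + L K - L 1 - L 0 := by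
  induction K with
  | zero => simp
  | succ K ih =>
    rw [Finset.sum_range_succ, ih]
    ring

/-- The average of the uniform averages over the sets `A 1, ..., A K`. -/
noncomputable def av (δ : X → E) (A : ℕ → Finset X) (K : ℕ) : E :=
  (K : ℝ)⁻¹ • ∑ i ∈ Finset.range K, mu δ (A (i + 1))

theorem av_sub_le {δ : X → E} (hδ : ∀ v, ‖δ v‖ ≤ 1) {A B : ℕ → Finset X} {K : ℕ} (hK : 0 < K)
    (h0 : (A 0).Nonempty) (hA : ∀ k, A k ⊆ A (k + 1)) (hAB : ∀ k, A k ⊆ B (k + 1))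
    (hBA : ∀ k, B k ⊆ A (k + 1)) :
    ‖av δ A K - av δ B K‖ ≤ 8 / K * Real.log (A (K + 1)).card := by
  have hne : ∀ k, (A k).Nonempty := by
    intro k
    induction k with
    | zero => exact h0
    | succ k ih => exact ih.mono (hA k)
  have hpos : ∀ k, (0 : ℝ) < (A k).card := fun k => by exact_mod_cast (hne k).card_pos
  have hmono : ∀ k, ((A k).card : ℝ) ≤ (A (k + 1)).card := fun k => by
    exact_mod_cast Finset.card_le_card (hA k)
  have hterm : ∀ i, ‖mu δ (A (i + 1)) - mu δ (B (i + 1))‖ ≤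
      4 * (Real.log (A (i + 2)).card - Real.log (A i).card) := by
    intro i
    have hBne : (B (i + 1)).Nonempty := (hne i).mono (hAB i)
    have hBpos : (0 : ℝ) < (B (i + 1)).card := by exact_mod_cast hBne.card_pos
    have h1 := mu_sub_le hδ (hA (i + 1)) (hne (i + 1))
    have h2 := mu_sub_le hδ (hBA (i + 1)) hBne
    have h3 := one_sub_div_le_log (hpos (i + 1)) (hpos (i + 2))
    have h4 := one_sub_div_le_log hBpos (hpos (i + 2))
    have h5 : Real.log (A i).card ≤ Real.log (A (i + 1)).card :=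
      Real.log_le_log (hpos i) (hmono i)
    have h6 : Real.log (A i).card ≤ Real.log (B (i + 1)).card :=
      Real.log_le_log (hpos i) (by exact_mod_cast Finset.card_le_card (hAB i))
    have h7 : ‖mu δ (A (i + 1)) - mu δ (B (i + 1))‖ ≤
        ‖mu δ (A (i + 1)) - mu δ (A (i + 2))‖ + ‖mu δ (B (i + 1)) - mu δ (A (i + 2))‖ := by
      rw [← norm_neg (mu δ (B (i + 1)) - mu δ (A (i + 2)))]
      have : mu δ (A (i + 1)) - mu δ (B (i + 1)) = (mu δ (A (i + 1)) - mu δ (A (i + 2))) +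
        -(mu δ (B (i + 1)) - mu δ (A (i + 2))) := by abel
      rw [this]
      exact norm_add_le _ _
    have e : i + 1 + 1 = i + 2 := rfl
    rw [e] at h1 h2
    linarith
  have hKpos : (0 : ℝ) < K := by exact_mod_cast hK
  unfold av
  rw [← smul_sub, ← Finset.sum_sub_distrib, norm_smul, norm_inv, Real.norm_of_nonneg hKpos.le]
  have h8 : ‖∑ i ∈ Finset.range K, (mu δ (A (i + 1)) - mu δ (B (i + 1)))‖ ≤
      4 * ∑ i ∈ Finset.range K, (Real.log (A (i + 2)).card - Real.log (A i).card) := by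
    rw [Finset.mul_sum]
    exact (norm_sum_le _ _).trans (Finset.sum_le_sum fun i _ => hterm i)
  rw [sum_two_step (fun k => Real.log (A k).card) K] at h8
  have h9 : Real.log (A K).card ≤ Real.log (A (K + 1)).card := Real.log_le_log (hpos K) (hmono K)
  have h10 : 0 ≤ Real.log (A 1).card := Real.log_natCast_nonneg _
  have h11 : 0 ≤ Real.log (A 0).card := Real.log_natCast_nonneg _
  have h12 : ‖∑ i ∈ Finset.range K, (mu δ (A (i + 1)) - mu δ (B (i + 1)))‖ ≤
      8 * Real.log (A (K + 1)).card := by linarith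
  calc (K : ℝ)⁻¹ * ‖∑ i ∈ Finset.range K, (mu δ (A (i + 1)) - mu δ (B (i + 1)))‖
      ≤ (K : ℝ)⁻¹ * (8 * Real.log (A (K + 1)).card) := by gcongr
    _ = 8 / K * Real.log (A (K + 1)).card := by ring

theorem mu_mem {δ : X → E} {S : Set E} (hS : Convex ℝ S) {A : Finset X} (hA : A.Nonempty)
    (h : ∀ v ∈ A, δ v ∈ S) : mu δ A ∈ S := by
  have hapos : (0 : ℝ) < A.card := by exact_mod_cast hA.card_pos
  unfold mu
  rw [Finset.smul_sum]
  refine hS.sum_mem (fun v _ => (inv_pos.2 hapos).le) ?_ h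
  rw [Finset.sum_const, nsmul_eq_mul, mul_inv_cancel₀ hapos.ne']

theorem av_mem {δ : X → E} {S : Set E} (hS : Convex ℝ S) {A : ℕ → Finset X} {K : ℕ} (hK : 0 < K)
    (h : ∀ i, i < K → mu δ (A (i + 1)) ∈ S) : av δ A K ∈ S := by
  have hKpos : (0 : ℝ) < K := by exact_mod_cast hK
  unfold av
  rw [Finset.smul_sum]
  refine hS.sum_mem (fun v _ => (inv_pos.2 hKpos).le) ?_
    (fun i hi => h i (Finset.mem_range.1 hi))
  rw [Finset.sum_const, nsmul_eq_mul, Finset.card_range, mul_inv_cancel₀ hKpos.ne']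

theorem norm_le_one_convex : Convex ℝ {ξ : E | ‖ξ‖ ≤ 1} := by
  have : {ξ : E | ‖ξ‖ ≤ 1} = Metric.closedBall 0 1 := by
    ext
    simp
  rw [this]
  exact convex_closedBall 0 1

end Mu

end Pool.Agent.Helper556_sys
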