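import Pool.Agent.Helper556_sys.PropA2

/-!
# From almost invariant measures to a coarse embedding into a Hilbert space
-/

namespace Pool.Agent.Helper556_sys

open SimpleGraph Filter

section Lp

variable {X : Type*}

theorem hasSum_norm_one (f : lp (fun _ : X => ℝ) 1) : HasSum (fun v => |f v|) ‖f‖ := by
  have h := lp.hasSum_norm (p := 1) (by norm_num) f
  simpa using h

theorem hasSum_sq {Y : Type*} {E : Y → Type*} [∀ i, NormedAddCommGroup (E i)]
    [∀ i, InnerProductSpace ℝ (E i)] (f : lp E 2) : HasSum (fun v => ‖f v‖ ^ 2) (‖f‖ ^ 2) := by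
  have h := lp.hasSum_norm (p := 2) (by norm_num) f
  simpa using h

theorem memlp_two {Y : Type*} {E : Y → Type*} [∀ i, NormedAddCommGroup (E i)]
    {f : ∀ i, E i} (h : Summable fun i => ‖f i‖ ^ 2) : Memℓp f 2 := by
  apply memℓp_gen
  simpa using h

/-- The square root of a nonnegative summable function. -/
theorem exists_sqrt (ξ : lp (fun _ : X => ℝ) 1) (h : ∀ v, 0 ≤ ξ v) :
    ∃ η : lp (fun _ : X => ℝ) 2, ∀ v, η v = Real.sqrt (ξ v) := by
  have h1 : Memℓp (fun v => Real.sqrt (ξ v)) 2 := by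
    apply memlp_two
    have h2 := (hasSum_norm_one ξ).summable
    refine h2.congr fun v => ?_
    rw [Real.norm_eq_abs, sq_abs, Real.sq_sqrt (h v), abs_of_nonneg (h v)]
  exact ⟨⟨_, h1⟩, fun v => rfl⟩

theorem sqrt_sub_sq_le {a b : ℝ} (ha : 0 ≤ a) (hb : 0 ≤ b) :
    (Real.sqrt a - Real.sqrt b) ^ 2 ≤ |a - b| := by
  wlog h : b ≤ a generalizing a b
  · have := this hb ha (by linarith)
    rw [abs_sub_comm] at this
    nlinarith
  rw [abs_of_nonneg (by linarith)]
  have h1 := Real.sqrt_le_sqrt h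
  have h2 := Real.sqrt_nonneg b
  have h3 := Real.sq_sqrt ha
  have h4 := Real.sq_sqrt hb
  nlinarith

theorem sqrt_norm_le {ξ ξ' : lp (fun _ : X => ℝ) 1} (h : ∀ v, 0 ≤ ξ v) (h' : ∀ v, 0 ≤ ξ' v)
    {η η' : lp (fun _ : X => ℝ) 2} (hη : ∀ v, η v = Real.sqrt (ξ v))
    (hη' : ∀ v, η' v = Real.sqrt (ξ' v)) : ‖η - η'‖ ^ 2 ≤ ‖ξ - ξ'‖ := by
  refine hasSum_le ?_ (hasSum_sq (η - η')) (hasSum_norm_one (ξ - ξ'))
  intro v
  simp only [lp.coeFn_sub, Pi.sub_apply, hη, hη', Real.norm_eq_abs, sq_abs]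
  exact sqrt_sub_sq_le (h v) (h' v)

theorem sqrt_norm_eq {ξ ξ' : lp (fun _ : X => ℝ) 1} (h : ∀ v, 0 ≤ ξ v) (h' : ∀ v, 0 ≤ ξ' v)
    {η η' : lp (fun _ : X => ℝ) 2} (hη : ∀ v, η v = Real.sqrt (ξ v))
    (hη' : ∀ v, η' v = Real.sqrt (ξ' v)) (h1 : HasSum (fun v => ξ v) 1)
    (h2 : HasSum (fun v => ξ' v) 1) (hd : ∀ v, ξ v = 0 ∨ ξ' v = 0) : ‖η - η'‖ ^ 2 = 2 := by
  have h3 := hasSum_sq (η - η')
  have h4 := h1.add h2
  have h5 : (fun v => ‖(η - η') v‖ ^ 2) = fun v => ξ v + ξ' v := by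
    funext v
    simp only [lp.coeFn_sub, Pi.sub_apply, hη, hη', Real.norm_eq_abs, sq_abs]
    rcases hd v with h6 | h6
    · rw [h6, Real.sqrt_zero, zero_sub, neg_sq, Real.sq_sqrt (h' v), zero_add]
    · rw [h6, Real.sqrt_zero, sub_zero, Real.sq_sqrt (h v), add_zero]
  rw [h5] at h3
  have := h3.unique h4
  rw [this]
  norm_num

end Lp

/-- Coarse embedding from almost invariant probability measures. -/
theorem coarse_of_measures {V : Type} {G : SimpleGraph V} (hc : G.Connected)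
    (hA : ∀ ε : ℝ, 0 < ε → ∃ S : ℕ, ∃ ξ : V → lp (fun _ : V => ℝ) 1, (∀ x, ξ x ∈ Sx G x S) ∧
      ∀ x y, G.Adj x y → ‖ξ x - ξ y‖ ≤ ε) :
    ∃ (H : Type) (_ : NormedAddCommGroup H) (_ : InnerProductSpace ℝ H)
      (_ : CompleteSpace H),
      ∃ (f : V → H) (ρm ρp : ℝ → ℝ),
        Monotone ρm ∧ Monotone ρp ∧ Tendsto ρm atTop atTop ∧
        ∀ x y : V,
          ρm (G.dist x y : ℝ) ≤ ‖f x - f y‖ ∧
          ‖f x - f y‖ ≤ ρp (G.dist x y : ℝ) := by
  classical
  obtain ⟨o⟩ := hc.nonempty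
  choose S ξ hξ1 hξ2 using fun n : ℕ => hA ((1 / 2) ^ n) (by positivity)
  choose η hη using fun (n : ℕ) (x : V) => exists_sqrt (ξ n x) (hξ1 n x).1
  -- variation along paths
  have hvar1 : ∀ (n : ℕ) (k : ℕ) (x y : V), G.dist x y = k →
      ‖ξ n x - ξ n y‖ ≤ k * (1 / 2) ^ n := by
    intro n k
    induction k with
    | zero =>
      intro x y h
      rw [hc.dist_eq_zero_iff.1 h]
      simp
    | succ k ih =>
      intro x y h
      obtain ⟨u, hu1, hu2⟩ := Pool.Agent.Q255.Bridged.exists_parent (G := G) (z := x) (v := y)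
        (k := k) h
      have h1 := ih x u hu2
      have h2 := hξ2 n u y hu1
      have h3 : ‖ξ n x - ξ n y‖ ≤ ‖ξ n x - ξ n u‖ + ‖ξ n u - ξ n y‖ := norm_sub_le_norm_sub_add_norm_sub _ _ _
      push_cast
      linarith
  have hvar : ∀ (n : ℕ) (x y : V), ‖η n x - η n y‖ ^ 2 ≤ G.dist x y * (1 / 2) ^ n := by
    intro n x y
    exact (sqrt_norm_le (hξ1 n x).1 (hξ1 n y).1 (hη n x) (hη n y)).trans (hvar1 n _ x y rfl)
  have hgeo : HasSum (fun n : ℕ => ((1 : ℝ) / 2) ^ n) 2 := hasSum_geometric_two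
  have hsum : ∀ x y : V, Summable fun n => ‖η n x - η n y‖ ^ 2 := by
    intro x y
    exact Summable.of_nonneg_of_le (fun n => by positivity) (fun n => hvar n x y)
      (hgeo.summable.mul_left _)
  have hmem : ∀ x : V, Memℓp (fun n => η n x - η n o) 2 := fun x => memlp_two (hsum x o)
  let f : V → lp (fun _ : ℕ => lp (fun _ : V => ℝ) 2) 2 := fun x => ⟨_, hmem x⟩
  have hf : ∀ x y n, (f x - f y) n = η n x - η n y := by
    intro x y n
    rw [lp.coeFn_sub, Pi.sub_apply]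
    show (η n x - η n o) - (η n y - η n o) = η n x - η n y
    abel
  have hfs : ∀ x y, HasSum (fun n => ‖η n x - η n y‖ ^ 2) (‖f x - f y‖ ^ 2) := by
    intro x y
    have h := hasSum_sq (f x - f y)
    simp only [hf] at h
    exact h
  let N : ℝ → ℕ := fun t => ((Finset.range ⌊t⌋₊).filter fun n => (2 * (S n : ℝ)) < t).card
  have hNmono : Monotone N := by
    intro s t hst
    refine Finset.card_le_card fun n hn => ?_
    rw [Finset.mem_filter, Finset.mem_range] at hn ⊢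
    exact ⟨lt_of_lt_of_le hn.1 (Nat.floor_mono hst), lt_of_lt_of_le hn.2 hst⟩
  have hNtend : Tendsto N atTop atTop := by
    rw [tendsto_atTop]
    intro m
    obtain ⟨T, hT⟩ : ∃ T : ℕ, ∀ n, n < m → 2 * S n < T := by
      refine ⟨(∑ n ∈ Finset.range m, 2 * S n) + 1, fun n hn => ?_⟩
      have := Finset.single_le_sum (f := fun n => 2 * S n) (fun _ _ => Nat.zero_le _)
        (Finset.mem_range.2 hn)
      omega
    filter_upwards [eventually_ge_atTop (max (m : ℝ) T)] with t ht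
    have h1 : (m : ℝ) ≤ t := le_trans (le_max_left _ _) ht
    have h2 : (T : ℝ) ≤ t := le_trans (le_max_right _ _) ht
    have h3 : Finset.range m ⊆ (Finset.range ⌊t⌋₊).filter fun n => (2 * (S n : ℝ)) < t := by
      intro n hn
      rw [Finset.mem_range] at hn
      rw [Finset.mem_filter, Finset.mem_range]
      refine ⟨lt_of_lt_of_le hn (Nat.le_floor h1), ?_⟩
      have h4 : ((2 * S n : ℕ) : ℝ) < (T : ℝ) := by exact_mod_cast hT n hn
      push_cast at h4
      linarith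
    have h5 := Finset.card_le_card h3
    rwa [Finset.card_range] at h5
  refine ⟨lp (fun _ : ℕ => lp (fun _ : V => ℝ) 2) 2, inferInstance, inferInstance, inferInstance,
    f, fun t => Real.sqrt (2 * N t), fun t => Real.sqrt (2 * t), ?_, ?_, ?_, ?_⟩
  · intro s t hst
    refine Real.sqrt_le_sqrt ?_
    have : (N s : ℝ) ≤ N t := by exact_mod_cast hNmono hst
    linarith
  · intro s t hst
    exact Real.sqrt_le_sqrt (by linarith)
  · refine Real.tendsto_sqrt_atTop.comp ?_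
    exact (tendsto_natCast_atTop_atTop.comp hNtend).const_mul_atTop (by norm_num)
  · intro x y
    constructor
    · refine Real.sqrt_le_iff.2 ⟨norm_nonneg _, ?_⟩
      have h1 : ∀ n ∈ (Finset.range ⌊(G.dist x y : ℝ)⌋₊).filter
          fun n => (2 * (S n : ℝ)) < (G.dist x y : ℝ), ‖η n x - η n y‖ ^ 2 = 2 := by
        intro n hn
        rw [Finset.mem_filter] at hn
        have h2 : 2 * S n < G.dist x y := by exact_mod_cast hn.2
        refine sqrt_norm_eq (hξ1 n x).1 (hξ1 n y).1 (hη n x) (hη n y) (hξ1 n x).2.1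
          (hξ1 n y).2.1 fun v => ?_
        have h3 := hc.dist_triangle (u := x) (v := v) (w := y)
        rw [SimpleGraph.dist_comm (u := v) (v := y)] at h3
        rcases Nat.lt_or_ge (S n) (G.dist x v) with h4 | h4
        · exact Or.inl ((hξ1 n x).2.2 v h4)
        · exact Or.inr ((hξ1 n y).2.2 v (by omega))
      have h2 := sum_le_hasSum ((Finset.range ⌊(G.dist x y : ℝ)⌋₊).filter
          fun n => (2 * (S n : ℝ)) < (G.dist x y : ℝ)) (fun n _ => by positivity) (hfs x y)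
      rw [Finset.sum_congr rfl h1, Finset.sum_const, nsmul_eq_mul] at h2
      show 2 * (N (G.dist x y : ℝ) : ℝ) ≤ ‖f x - f y‖ ^ 2
      rw [mul_comm]
      exact h2
    · apply Real.le_sqrt_of_sq_le
      have h1 := hasSum_le (fun n => hvar n x y) (hfs x y) (hgeo.mul_left (G.dist x y : ℝ))
      linarith

end Pool.Agent.Helper556_sys
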