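import Pool.Agent.Q255.BridgedB

/-!
# Bridged graphs: intervals, convexity of balls, metric triangles
-/

namespace Pool.Agent.Helper556_sys

open SimpleGraph Pool.Agent.Q255.Bridged

variable {V : Type*} {G : SimpleGraph V}

/-- Connected graphs with the interval neighbourhood condition and the triangle condition for
every base vertex, without induced cycles of length four and five. -/
structure Br (G : SimpleGraph V) : Prop where
  conn : G.Connected
  c4 : NoC4 G
  c5 : NoC5 G
  inc : ∀ z v a b, G.Adj v a → G.Adj v b → G.dist z a + 1 = G.dist z v →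
    G.dist z b + 1 = G.dist z v → a = b ∨ G.Adj a b
  tc : ∀ z u v, G.Adj u v → G.dist z u = G.dist z v →
    ∃ w, G.Adj w u ∧ G.Adj w v ∧ G.dist z w + 1 = G.dist z u

theorem br_of_noIso (hc : G.Connected) (h : NoIso G) : Br G where
  conn := hc
  c4 := noC4_of_noIso h
  c5 := noC5_of_noIso h
  inc := by
    intro z v a b hva hvb ha hb
    exact (AB h (G.dist z a)).1 z v a b (by omega) hva hvb rfl (by omega)
  tc := by
    intro z u v huv hd
    have hpos : 0 < G.dist z u := by
      rcases Nat.eq_zero_or_pos (G.dist z u) with h0 | h0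
      · exfalso
        have h1 : z = u := hc.dist_eq_zero_iff.1 h0
        have h2 : z = v := hc.dist_eq_zero_iff.1 (by omega)
        exact huv.ne (h1.symm.trans h2)
      · exact h0
    obtain ⟨w, h1, h2, h3⟩ := (AB h (G.dist z u - 1)).2 z u v huv (by omega) (by omega)
    exact ⟨w, h1, h2, by omega⟩

namespace Br

theorem tri (hG : Br G) (a b c : V) : G.dist a c ≤ G.dist a b + G.dist b c :=
  hG.conn.dist_triangle

theorem le_one (_hG : Br G) {a b : V} (h : a = b ∨ G.Adj a b) : G.dist a b ≤ 1 := by
  rcases h with rfl | h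
  · simp
  · exact (dist_eq_one_iff_adj.2 h).le

theorem of_le_one (hG : Br G) {a b : V} (h : G.dist a b ≤ 1) : a = b ∨ G.Adj a b := by
  rcases Nat.eq_zero_or_pos (G.dist a b) with h0 | h0
  · exact Or.inl (hG.conn.dist_eq_zero_iff.1 h0)
  · exact Or.inr (dist_eq_one_iff_adj.1 (by omega))

theorem eq_zero (hG : Br G) {a b : V} (h : G.dist a b = 0) : a = b :=
  hG.conn.dist_eq_zero_iff.1 h

theorem one (_hG : Br G) {a b : V} (h : G.Adj a b) : G.dist a b = 1 := dist_eq_one_iff_adj.2 h

theorem lip1 (_hG : Br G) {a b : V} (h : G.Adj a b) (z : V) : G.dist z a ≤ G.dist z b + 1 :=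
  lip G h.symm z

theorem lip2 (_hG : Br G) {a b : V} (h : G.Adj a b) (z : V) : G.dist z b ≤ G.dist z a + 1 :=
  lip G h z

/-- First step of a geodesic from `a` to `b`. -/
theorem step (_hG : Br G) {a b : V} (h : 0 < G.dist a b) :
    ∃ c, G.Adj a c ∧ G.dist c b + 1 = G.dist a b := by
  obtain ⟨u, h1, h2⟩ := exists_parent (G := G) (z := b) (v := a) (k := G.dist a b - 1)
    (by rw [dist_comm]; omega)
  refine ⟨u, h1.symm, ?_⟩
  rw [dist_comm]
  omega

/-- If `w` is closer to `u` than `v`, then some first step from `v` to `w` is also a first step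
from `v` to `u`. -/
theorem down (hG : Br G) : ∀ (r : ℕ) (u v w : V), G.dist v w = r → G.dist u w < G.dist u v →
    ∃ z, G.Adj z v ∧ G.dist u z + 1 = G.dist u v ∧ G.dist z w + 1 = G.dist v w := by
  intro r
  induction r with
  | zero =>
    intro u v w hr h
    have := hG.eq_zero hr
    rw [this] at h
    exact absurd h (lt_irrefl _)
  | succ r ih =>
    intro u v w hr h
    obtain ⟨c, hvc, hcw⟩ := hG.step (a := v) (b := w) (by omega)
    have h1 := hG.lip1 hvc u
    have h2 := hG.lip2 hvc u
    rcases Nat.lt_trichotomy (G.dist u c) (G.dist u v) with hlt | heq | hgt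
    · exact ⟨c, hvc.symm, by omega, hcw⟩
    · obtain ⟨z', hz1, hz2, hz3⟩ := ih u c w (by omega) (by omega)
      obtain ⟨z, hzv, hzc, hz⟩ := hG.tc u v c hvc heq.symm
      have h3 := hG.inc u c z z' hzc.symm hz1.symm (by omega) hz2
      have h4 := hG.le_one h3
      have h5 := hG.tri z z' w
      have h6 := hG.lip2 hzv w
      rw [dist_comm, dist_comm (u := w)] at h6
      exact ⟨z, hzv, hz, by omega⟩
    · exfalso
      obtain ⟨z', hz1, hz2, hz3⟩ := ih u c w (by omega) (by omega)
      have h3 := hG.inc u c v z' hvc.symm hz1.symm (by omega) hz2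
      have h4 := hG.le_one h3
      have h5 := hG.tri v z' w
      omega

/-- Balls are convex. -/
theorem conv (hG : Br G) (u : V) {v w c : V} (hc : G.dist v c + G.dist c w = G.dist v w) :
    G.dist u c ≤ max (G.dist u v) (G.dist u w) := by
  by_contra hcon
  push Not at hcon
  rw [max_lt_iff] at hcon
  obtain ⟨z, hz1, hz2, hz3⟩ := hG.down _ u c v rfl hcon.1
  obtain ⟨z', hz1', hz2', hz3'⟩ := hG.down _ u c w rfl hcon.2
  have h3 := hG.le_one (hG.inc u c z z' hz1.symm hz1'.symm hz2 hz2')
  have h4 := hG.tri v z w
  have h5 := hG.tri z z' w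
  rw [dist_comm (u := z) (v := v), dist_comm (u := c) (v := v)] at hz3
  omega

/-- `y` is separated from `a`, `b`: no first step towards both. -/
def Sep (G : SimpleGraph V) (y a b : V) : Prop :=
  ∀ u, G.Adj y u → G.dist u a + 1 = G.dist y a → G.dist u b + 1 = G.dist y b → False

theorem Sep.symm {y a b : V} (h : Sep G y a b) : Sep G y b a :=
  fun u h1 h2 h3 => h u h1 h3 h2

theorem Sep.le (hG : Br G) {y a b : V} (h : Sep G y a b) : G.dist y b ≤ G.dist a b := by
  by_contra hcon
  push Not at hcon
  rw [dist_comm (u := a), dist_comm (u := y)] at hcon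
  obtain ⟨z, h1, h2, h3⟩ := hG.down _ b y a rfl hcon
  refine h z h1.symm h3 ?_
  rw [dist_comm, dist_comm (u := y)]
  exact h2

/-- Separation is inherited by points of the intervals. -/
theorem Sep.sub (hG : Br G) {y a b a' : V} (h : Sep G y a b)
    (ha : G.dist y a' + G.dist a' a = G.dist y a) : Sep G y a' b := by
  intro u h1 h2 h3
  refine h u h1 ?_ h3
  have h4 := hG.tri u a' a
  have h5 := hG.tri y u a
  have h6 := hG.one h1
  omega

/-- The corner of a large metric triangle. -/
theorem corner (hG : Br G) : ∀ (n : ℕ) (y a b : V), G.dist y a + G.dist y b = n →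
    Sep G y a b → G.dist a b + 2 ≤ G.dist y a + G.dist y b →
    ∃ a' b', G.dist y a' = 2 ∧ G.dist a' a + 2 = G.dist y a ∧ G.dist y b' = 2 ∧
      G.dist b' b + 2 = G.dist y b ∧ G.dist a' b' = 2 := by
  intro n
  induction n using Nat.strong_induction_on with
  | _ n ih =>
    intro y a b hn hs hd
    have cab := dist_comm (G := G) (u := a) (v := b)
    have cya := dist_comm (G := G) (u := y) (v := a)
    have cyb := dist_comm (G := G) (u := y) (v := b)
    have h1 := hs.le hG
    have h2 := hs.symm.le hG
    have ha2 : 2 ≤ G.dist y a := by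
      by_contra hcon
      have : G.dist y a = 0 ∨ G.dist y a = 1 := by omega
      rcases this with h | h
      · have := hG.eq_zero h
        subst this
        omega
      · exact hs a (dist_eq_one_iff_adj.1 h) (by rw [dist_self]; omega) (by omega)
    have hb2 : 2 ≤ G.dist y b := by
      by_contra hcon
      have : G.dist y b = 0 ∨ G.dist y b = 1 := by omega
      rcases this with h | h
      · have := hG.eq_zero h
        subst this
        omega
      · exact hs b (dist_eq_one_iff_adj.1 h) (by omega) (by rw [dist_self]; omega)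
    by_cases hA : Sep G a y b
    · by_cases hB : Sep G b y a
      · have h3 := hA.le hG
        have h4 := hA.symm.le hG
        have h5 := hB.le hG
        have h6 := hB.symm.le hG
        rcases Nat.eq_or_lt_of_le ha2 with h7 | h7
        · exact ⟨a, b, by omega, by rw [dist_self]; omega, by omega, by rw [dist_self]; omega,
            by omega⟩
        · obtain ⟨c, hac, hcy⟩ := hG.step (a := a) (b := y) (by omega)
          have hc1 := hG.one hac
          have hcb := hG.conv b (v := a) (w := y) (c := c) (by omega)
          have ccy := dist_comm (G := G) (u := c) (v := y)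
          have ccb := dist_comm (G := G) (u := c) (v := b)
          have cca := dist_comm (G := G) (u := c) (v := a)
          have hsub := hs.sub hG (a' := c) (by omega)
          obtain ⟨a', b', k1, k2, k3, k4, k5⟩ := ih (G.dist y c + G.dist y b) (by omega) y c b rfl
            hsub (by omega)
          have k6 := hG.tri a' c a
          have k7 := hG.tri y a' a
          exact ⟨a', b', k1, by omega, k3, k4, k5⟩
      · unfold Sep at hB
        push Not at hB
        obtain ⟨c, hbc, hcy, hca⟩ := hB
        have hc1 := hG.one hbc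
        have ccy := dist_comm (G := G) (u := c) (v := y)
        have cca := dist_comm (G := G) (u := c) (v := a)
        have ccb := dist_comm (G := G) (u := c) (v := b)
        have hsub := (hs.symm.sub hG (a' := c) (by omega)).symm
        obtain ⟨a', b', k1, k2, k3, k4, k5⟩ := ih (G.dist y a + G.dist y c) (by omega) y a c rfl
          hsub (by omega)
        have k6 := hG.tri b' c b
        have k7 := hG.tri y b' b
        exact ⟨a', b', k1, k2, k3, by omega, k5⟩
    · unfold Sep at hA
      push Not at hA
      obtain ⟨c, hac, hcy, hcb⟩ := hA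
      have hc1 := hG.one hac
      have ccy := dist_comm (G := G) (u := c) (v := y)
      have cca := dist_comm (G := G) (u := c) (v := a)
      have ccb := dist_comm (G := G) (u := c) (v := b)
      have hsub := hs.sub hG (a' := c) (by omega)
      obtain ⟨a', b', k1, k2, k3, k4, k5⟩ := ih (G.dist y c + G.dist y b) (by omega) y c b rfl
        hsub (by omega)
      have k6 := hG.tri a' c a
      have k7 := hG.tri y a' a
      exact ⟨a', b', k1, by omega, k3, k4, k5⟩

/-- The flat triangle of side two. -/
theorem flat (hG : Br G) {y a b : V} (hs : Sep G y a b) (hya : G.dist y a = 2)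
    (hyb : G.dist y b = 2) (hab : G.dist a b = 2) :
    ∃ m u v, G.Adj m a ∧ G.Adj m b ∧ G.Adj m u ∧ G.Adj m v ∧ G.Adj y u ∧ G.Adj y v ∧
      G.Adj u a ∧ G.Adj v b ∧ G.Adj u v := by
  obtain ⟨m, ham, hmb⟩ := hG.step (a := a) (b := b) (by omega)
  have hmb' : G.Adj m b := dist_eq_one_iff_adj.1 (by omega)
  have ham1 := hG.one ham
  have h1 := hG.conv y (v := a) (w := b) (c := m) (by omega)
  have h2 : G.dist y m ≠ 1 := by
    intro h
    refine hs m (dist_eq_one_iff_adj.1 h) ?_ ?_
    · rw [dist_comm]; omega
    · omega
  have h3 := hG.lip2 ham y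
  have h4 := hG.lip1 ham y
  have hym : G.dist y m = 2 := by omega
  obtain ⟨u, hua, hum, hu⟩ := hG.tc y a m ham (by omega)
  obtain ⟨v, hvb, hvm, hv⟩ := hG.tc y b m hmb'.symm (by omega)
  have hyu : G.Adj y u := dist_eq_one_iff_adj.1 (by omega)
  have hyv : G.Adj y v := dist_eq_one_iff_adj.1 (by omega)
  have huv := hG.inc y m u v hum.symm hvm.symm (by omega) (by omega)
  refine ⟨m, u, v, ham.symm, hmb', hum.symm, hvm.symm, hyu, hyv, hua, hvb, ?_⟩
  rcases huv with rfl | h
  · exfalso
    refine hs u hyu ?_ ?_
    · rw [hG.one hua, hya]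
    · rw [hG.one hvb, hyb]
  · exact h

end Br

end Pool.Agent.Helper556_sys
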