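import Pool.Agent.Helper556_sys.Coarse

/-!
# The hypotheses of the coarse embedding problem
-/

namespace Pool.Agent.Helper556_sys

open SimpleGraph Filter Pool.Agent.Q255.Bridged

variable {V : Type*} {G : SimpleGraph V}

/-- The hypothesis on isometric cycles, for functions on `Fin n`. -/
theorem noIso_of_fin
    (h : ∀ n : ℕ, 4 ≤ n → ∀ c : Fin n → V,
          ¬ ∀ i j : Fin n,
            G.dist (c i) (c j) =
              min ((i : ℕ) - (j : ℕ) + ((j : ℕ) - (i : ℕ)))
                  (n - ((i : ℕ) - (j : ℕ) + ((j : ℕ) - (i : ℕ))))) : NoIso G := by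
  intro n hn c hc
  have key : ∀ i j : ℕ, i ≤ j → j < i + n →
      G.dist (c i) (c j) = min (j - i) (n - (j - i)) := by
    intro i j hij hj
    rcases Nat.lt_or_ge n (2 * (j - i)) with h1 | h1
    · have h2 := hc.iso j (i + n - j) (by omega)
      have e : j + (i + n - j) = i + n := by omega
      rw [e, hc.per, SimpleGraph.dist_comm] at h2
      omega
    · have h2 := hc.iso i (j - i) h1
      have e : i + (j - i) = j := by omega
      rw [e] at h2
      omega
  refine h n hn (fun i => c i) fun i j => ?_
  have hi := i.isLt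
  have hj := j.isLt
  rcases Nat.le_total (i : ℕ) (j : ℕ) with h1 | h1
  · have h2 := key i j h1 (by omega)
    show G.dist (c i) (c j) = _
    omega
  · have h2 := key j i h1 (by omega)
    show G.dist (c i) (c j) = _
    rw [SimpleGraph.dist_comm]
    omega

/-- The bound on the number of cliques bounds the cardinality of balls of radius one. -/
theorem deg_of_cliques (hG : G.Connected) {N : ℕ} (h : ∀ v : V, ∀ S : Finset (Finset V),
      (∀ s ∈ S, v ∈ s ∧ G.IsClique (s : Set V)) → S.card ≤ N) :
    ∀ (v : V) (T : Finset V), (∀ t ∈ T, G.dist v t ≤ 1) → T.card ≤ N := by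
  classical
  intro v T hT
  have hinj : Set.InjOn (fun t => ({v, t} : Finset V)) (T : Set V) := by
    intro t _ t' _ h1
    have h2 : ({v, t} : Finset V) = {v, t'} := h1
    have h3 : t ∈ ({v, t'} : Finset V) := by rw [← h2]; simp
    have h4 : t' ∈ ({v, t} : Finset V) := by rw [h2]; simp
    rw [Finset.mem_insert, Finset.mem_singleton] at h3 h4
    rcases h3 with h3 | h3
    · rcases h4 with h4 | h4
      · rw [h3, h4]
      · exact h4.symm
    · exact h3
  rw [← Finset.card_image_of_injOn hinj]
  refine h v _ fun s hs => ?_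
  rw [Finset.mem_image] at hs
  obtain ⟨t, ht, rfl⟩ := hs
  refine ⟨by simp, ?_⟩
  have h1 := hT t ht
  have hvt : v = t ∨ G.Adj v t := by
    rcases Nat.eq_zero_or_pos (G.dist v t) with h0 | h0
    · exact Or.inl (hG.dist_eq_zero_iff.1 h0)
    · exact Or.inr (dist_eq_one_iff_adj.1 (by omega))
  intro a ha b hb hab
  simp only [Finset.coe_insert, Finset.coe_singleton, Set.mem_insert_iff,
    Set.mem_singleton_iff] at ha hb
  rcases hvt with rfl | hvt
  · rcases ha with rfl | rfl <;> rcases hb with rfl | rfl <;> exact absurd rfl hab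
  · rcases ha with rfl | rfl <;> rcases hb with rfl | rfl
    · exact absurd rfl hab
    · exact hvt
    · exact hvt.symm
    · exact absurd rfl hab

end Pool.Agent.Helper556_sys
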