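import Pool.Agent.Helper556_sys.Core

/-!
# Bridged graphs: the father map and the two-step projection
-/

namespace Pool.Agent.Helper556_sys

open SimpleGraph Pool.Agent.Q255.Bridged

variable {V : Type*} {G : SimpleGraph V}

theorem Br.lev (hG : Br G) (o : V) : Lev G (G.dist o) where
  lip _ _ h := Pool.Agent.Q255.Bridged.lip G h o
  par v k h := exists_parent h
  inc v a b k hv hva hvb ha hb := hG.inc o v a b hva hvb (by omega) (by omega)
  tc u v huv h := hG.tc o u v huv h

/-- The breadth first search order with root `o` on the level `k`. -/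
def lt (G : SimpleGraph V) (o : V) (k : ℕ) (u v : V) : Prop := (ord G (G.dist o) k).1 u v

/-- The father of `v` in the breadth first search with root `o`. -/
noncomputable def fth (G : SimpleGraph V) (o v : V) : V := father G (G.dist o) v

open Classical in
/-- The two-step projection towards `o`. -/
noncomputable def phi (G : SimpleGraph V) (o v : V) : V :=
  if h : ∃ y, G.dist o y + 2 = G.dist o v ∧
    ∀ z, G.Adj z v → G.dist o z + 1 = G.dist o v → G.Adj y z then h.choose else o

theorem lt_tri (o : V) (k : ℕ) (u v : V) : lt G o k u v ∨ u = v ∨ lt G o k v u := by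
  have := (ord G (G.dist o) k).2
  exact trichotomous_of (ord G (G.dist o) k).1 u v

theorem lt_asymm' {o : V} {k : ℕ} {u v : V} (h : lt G o k u v) (h' : lt G o k v u) : False := by
  have := (ord G (G.dist o) k).2
  exact asymm_of (ord G (G.dist o) k).1 h h'

theorem lt_irrefl' {o : V} {k : ℕ} {u : V} (h : lt G o k u u) : False :=
  lt_asymm' h h

theorem lt_trans' {o : V} {k : ℕ} {u v w : V} (h : lt G o k u v) (h' : lt G o k v w) :
    lt G o k u w := by
  have := (ord G (G.dist o) k).2
  exact trans_of (ord G (G.dist o) k).1 h h'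

namespace Br

theorem fth_lev (hG : Br G) (o v : V) : G.dist o (fth G o v) = G.dist o v - 1 :=
  lev_father (hG.lev o) v

theorem fth_adj (hG : Br G) {o v : V} (h : 0 < G.dist o v) : G.Adj (fth G o v) v :=
  (father_spec (hG.lev o) (k := G.dist o v - 1) (v := v) (by omega)).1

theorem fth_min (hG : Br G) {o v w : V} (hw : G.Adj w v) (h : G.dist o w + 1 = G.dist o v) :
    ¬ lt G o (G.dist o w) w (fth G o v) := by
  have h1 := (fa_spec (hG.lev o) (ord G (G.dist o) (G.dist o w)) (k := G.dist o w) (v := v)
    h.symm).2.2 w hw rfl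
  have h2 := father_eq (G := G) (lev := G.dist o) (k := G.dist o w) (v := v) h.symm
  unfold lt fth
  rw [h2]
  exact h1

theorem fth_zero (hG : Br G) {o v : V} (h : G.dist o v = 0) : fth G o v = v := by
  have h1 := hG.fth_lev o v
  rw [h] at h1
  exact (hG.eq_zero h1).symm.trans (hG.eq_zero h)

/-- The smaller of two neighbours on one level is adjacent to the father of the larger one. -/
theorem dom (hG : Br G) {o u v : V} (hl : G.dist o u = G.dist o v) (h : G.Adj u v)
    (hlt : lt G o (G.dist o v) u v) : G.Adj u (fth G o v) :=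
  dom_same (hG.lev o) hG.c4 hG.c5 _ u v hl rfl h hlt

/-- Lower neighbours of one vertex are at distance at most one. -/
theorem low (hG : Br G) {o v a b : V} (ha : G.Adj v a) (hb : G.Adj v b)
    (h1 : G.dist o a + 1 = G.dist o v) (h2 : G.dist o b + 1 = G.dist o v) : G.dist a b ≤ 1 :=
  hG.le_one (hG.inc o v a b ha hb h1 h2)

theorem fth_lip1 (hG : Br G) (o : V) {u v : V} (h : G.Adj u v) :
    G.dist (fth G o u) (fth G o v) ≤ 1 := by
  wlog hle : G.dist o u ≤ G.dist o v generalizing u v
  · rw [dist_comm]
    exact this h.symm (by omega)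
  have h1 := hG.lip2 h o
  rcases Nat.eq_or_lt_of_le hle with heq | hlt
  · -- same level
    have hpos : 0 < G.dist o u := by
      rcases Nat.eq_zero_or_pos (G.dist o u) with h0 | h0
      · exfalso
        exact h.ne ((hG.eq_zero h0).symm.trans (hG.eq_zero (by omega)))
      · exact h0
    have fu := hG.fth_adj (o := o) (v := u) hpos
    have fv := hG.fth_adj (o := o) (v := v) (by omega)
    have lu := hG.fth_lev o u
    have lv := hG.fth_lev o v
    rcases lt_tri (G := G) o (G.dist o v) u v with h2 | h2 | h2
    · have h3 := hG.dom heq h h2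
      exact hG.low (v := u) (o := o) fu.symm h3.symm.symm (by omega) (by omega)
    · exact absurd h2 h.ne
    · have h3 := hG.dom (o := o) heq.symm h.symm (by rw [heq]; exact h2)
      exact hG.low (v := v) (o := o) h3 fv.symm (by omega) (by omega)
  · have hv : G.dist o u + 1 = G.dist o v := by omega
    have fv := hG.fth_adj (o := o) (v := v) (by omega)
    have lv := hG.fth_lev o v
    have lu := hG.fth_lev o u
    rcases Nat.eq_zero_or_pos (G.dist o u) with h0 | h0
    · have h2 := hG.eq_zero h0
      have h3 : G.dist o (fth G o u) = 0 := by omega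
      have h4 : G.dist o (fth G o v) = 0 := by omega
      rw [← hG.eq_zero h3, ← hG.eq_zero h4]
      simp
    · rcases hG.inc o v u (fth G o v) h.symm fv.symm hv (by omega) with h2 | h2
      · have h3 := hG.one (hG.fth_adj h0)
        rw [← h2]
        omega
      · rcases lt_tri (G := G) o (G.dist o u) (fth G o v) u with h3 | h3 | h3
        · have h4 := hG.dom (o := o) (by omega) h2.symm h3
          rw [SimpleGraph.dist_comm]
          exact (hG.one h4).le
        · exact absurd h3.symm h2.ne
        · exact absurd h3 (hG.fth_min h hv)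

/-- A finite clique on one level has a common lower neighbour. -/
theorem common (hG : Br G) (o : V) (T : Finset V) (hT : T.Nonempty) {k : ℕ}
    (hl : ∀ u ∈ T, G.dist o u = k + 1) (hcl : ∀ u ∈ T, ∀ v ∈ T, u = v ∨ G.Adj u v) :
    ∃ w, G.dist o w = k ∧ ∀ u ∈ T, G.Adj w u := by
  obtain ⟨v, hv, hv1, hv2⟩ := exists_last (G := G) (lev := G.dist o) T hT
  have lv := hG.fth_lev o v
  have h1 := hl v hv
  refine ⟨fth G o v, by omega, fun u hu => ?_⟩
  rcases hcl u hu v hv with rfl | h
  · exact hG.fth_adj (by omega)
  · have h2 : G.dist o u = G.dist o v := by rw [hl u hu, h1]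
    rcases lt_tri (G := G) o (G.dist o v) u v with h3 | h3 | h3
    · exact (hG.dom h2 h h3).symm
    · exact absurd h3 h.ne
    · exact absurd h3 (hv2 u hu h2)

/-- Three pairwise close vertices on one level have a common lower neighbour. -/
theorem common3 (hG : Br G) (o : V) {a b c : V} {k : ℕ} (ha : G.dist o a = k + 1)
    (hb : G.dist o b = k + 1) (hc : G.dist o c = k + 1) (hab : G.dist a b ≤ 1)
    (hac : G.dist a c ≤ 1) (hbc : G.dist b c ≤ 1) :
    ∃ w, G.dist o w = k ∧ G.Adj w a ∧ G.Adj w b ∧ G.Adj w c := by
  classical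
  obtain ⟨w, h1, h2⟩ := hG.common o {a, b, c} (by simp) (k := k) (by
      intro u hu
      simp only [Finset.mem_insert, Finset.mem_singleton] at hu
      rcases hu with rfl | rfl | rfl <;> assumption) (by
      intro u hu v hv
      simp only [Finset.mem_insert, Finset.mem_singleton] at hu hv
      apply hG.of_le_one
      rcases hu with rfl | rfl | rfl <;> rcases hv with rfl | rfl | rfl <;>
        first
          | (rw [dist_self]; omega)
          | assumption
          | (rw [dist_comm]; assumption))
  exact ⟨w, h1, h2 a (by simp), h2 b (by simp), h2 c (by simp)⟩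

theorem phi_spec (hG : Br G) (hf : ∀ v, (G.neighborSet v).Finite) {o v : V}
    (h : 2 ≤ G.dist o v) : G.dist o (phi G o v) + 2 = G.dist o v ∧
      ∀ z, G.Adj z v → G.dist o z + 1 = G.dist o v → G.Adj (phi G o v) z := by
  have hex : ∃ y, G.dist o y + 2 = G.dist o v ∧
      ∀ z, G.Adj z v → G.dist o z + 1 = G.dist o v → G.Adj y z := by
    classical
    have hfin : {z | G.Adj z v ∧ G.dist o z + 1 = G.dist o v}.Finite :=
      (hf v).subset (fun z hz => hz.1.symm)
    obtain ⟨w, h1, h2⟩ := hG.common o hfin.toFinset (by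
        refine ⟨fth G o v, ?_⟩
        rw [Set.Finite.mem_toFinset]
        have := hG.fth_lev o v
        exact ⟨hG.fth_adj (by omega), by omega⟩) (k := G.dist o v - 2) (by
        intro u hu
        rw [Set.Finite.mem_toFinset] at hu
        have := hu.2
        omega) (by
        intro a ha b hb
        rw [Set.Finite.mem_toFinset] at ha hb
        exact hG.inc o v a b ha.1.symm hb.1.symm ha.2 hb.2)
    refine ⟨w, by omega, fun z hz1 hz2 => h2 z ?_⟩
    rw [Set.Finite.mem_toFinset]
    exact ⟨hz1, hz2⟩
  unfold phi
  rw [dif_pos hex]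
  exact hex.choose_spec

theorem phi_low (_hG : Br G) {o v : V} (h : G.dist o v ≤ 1) : phi G o v = o := by
  unfold phi
  rw [dif_neg]
  rintro ⟨y, hy, _⟩
  omega

theorem phi_lev (hG : Br G) (hf : ∀ v, (G.neighborSet v).Finite) (o v : V) :
    G.dist o (phi G o v) = G.dist o v - 2 := by
  rcases Nat.lt_or_ge (G.dist o v) 2 with h | h
  · rw [hG.phi_low (by omega), dist_self]
    omega
  · have := (hG.phi_spec hf h).1
    omega

theorem phi_lip1 (hG : Br G) (hf : ∀ v, (G.neighborSet v).Finite) (o : V) {u v : V}
    (h : G.Adj u v) : G.dist (phi G o u) (phi G o v) ≤ 1 := by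
  wlog hle : G.dist o u ≤ G.dist o v generalizing u v
  · rw [dist_comm]
    exact this h.symm (by omega)
  have h1 := hG.lip2 h o
  have pu := hG.phi_lev hf o u
  have pv := hG.phi_lev hf o v
  rcases Nat.lt_or_ge (G.dist o v) 3 with h3 | h3
  · rcases Nat.lt_or_ge (G.dist o u) 2 with h4 | h4
    · rw [hG.eq_zero (a := o) (b := phi G o u) (by omega) |>.symm,
        hG.eq_zero (a := o) (b := phi G o v) (by omega) |>.symm]
      simp
    · rw [hG.eq_zero (a := o) (b := phi G o u) (by omega) |>.symm,
        hG.eq_zero (a := o) (b := phi G o v) (by omega) |>.symm]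
      simp
  · obtain ⟨su1, su2⟩ := hG.phi_spec hf (o := o) (v := u) (by omega)
    obtain ⟨sv1, sv2⟩ := hG.phi_spec hf (o := o) (v := v) (by omega)
    rcases Nat.eq_or_lt_of_le hle with heq | hlt
    · obtain ⟨z, hzu, hzv, hz⟩ := hG.tc o u v h heq
      exact hG.low (o := o) (v := z) (su2 z hzu hz).symm (sv2 z hzv (by omega)).symm (by omega)
        (by omega)
    · have h4 := sv2 u h (by omega)
      have h5 := su2 (phi G o v) h4 (by omega)
      exact (hG.one h5).le

/-- Maps that move neighbours to distance at most one are short. -/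
theorem lip_of (hG : Br G) {g : V → V} (hg : ∀ u v, G.Adj u v → G.dist (g u) (g v) ≤ 1) (u v : V) :
    G.dist (g u) (g v) ≤ G.dist u v :=
  (dist_weak (H := G) (F := G) g (fun x y h => hG.of_le_one (hg x y h))
    (hG.conn.preconnected u v)).2

theorem fth_lip (hG : Br G) (o u v : V) : G.dist (fth G o u) (fth G o v) ≤ G.dist u v :=
  hG.lip_of (fun _ _ h => hG.fth_lip1 o h) u v

theorem phi_lip (hG : Br G) (hf : ∀ v, (G.neighborSet v).Finite) (o u v : V) :
    G.dist (phi G o u) (phi G o v) ≤ G.dist u v :=
  hG.lip_of (fun _ _ h => hG.phi_lip1 hf o h) u v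

end Br

end Pool.Agent.Helper556_sys
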