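import Pool.Agent.Helper556_sys.Avg
import Pool.Agent.Helper556_sys.Count

/-!
# Bridged graphs of bounded degree: almost invariant probability measures
-/

namespace Pool.Agent.Helper556_sys

open SimpleGraph

variable {V : Type*} {G : SimpleGraph V}

theorem ball_finset (hc : G.Connected) {Δ : ℕ}
    (hΔ : ∀ (v : V) (T : Finset V), (∀ t ∈ T, G.dist v t ≤ 1) → T.card ≤ Δ) (x : V) (k : ℕ) :
    ∃ B : Finset V, (∀ q, q ∈ B ↔ G.dist x q ≤ k) ∧ B.card ≤ Δ ^ k := by
  classical
  have h1 : ∀ v : V, ∃ B : Finset V, ∀ q, q ∈ B ↔ G.dist v q ≤ 1 := by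
    intro v
    have hfin : {q | G.dist v q ≤ 1}.Finite := by
      by_contra hinf
      obtain ⟨T, hT1, hT2⟩ := Set.Infinite.exists_subset_card_eq hinf (Δ + 1)
      have := hΔ v T (fun t ht => hT1 ht)
      omega
    exact ⟨hfin.toFinset, fun q => by rw [Set.Finite.mem_toFinset]; rfl⟩
  choose N hN using h1
  induction k with
  | zero =>
    refine ⟨{x}, fun q => ?_, by simp⟩
    rw [Finset.mem_singleton, Nat.le_zero, hc.dist_eq_zero_iff, eq_comm]
  | succ k ih =>
    obtain ⟨B, hB1, hB2⟩ := ih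
    refine ⟨B.biUnion N, fun q => ?_, ?_⟩
    · rw [Finset.mem_biUnion]
      constructor
      · rintro ⟨v, hv, hq⟩
        rw [hB1] at hv
        rw [hN] at hq
        have := hc.dist_triangle (u := x) (v := v) (w := q)
        omega
      · intro hq
        rcases Nat.lt_or_ge (G.dist x q) (k + 1) with h | h
        · exact ⟨q, (hB1 q).2 (by omega), (hN q q).2 (by rw [dist_self]; omega)⟩
        · obtain ⟨u, hu1, hu2⟩ := Pool.Agent.Q255.Bridged.exists_parent (G := G) (z := x) (v := q)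
            (k := k) (by omega)
          exact ⟨u, (hB1 u).2 (by omega), (hN u q).2 (dist_eq_one_iff_adj.2 hu1).le⟩
    · calc (B.biUnion N).card ≤ B.card * Δ :=
            Finset.card_biUnion_le_card_mul _ _ _ (fun v _ => hΔ v (N v) (fun t ht => (hN v t).1 ht))
        _ ≤ Δ ^ k * Δ := Nat.mul_le_mul_right _ hB2
        _ = Δ ^ (k + 1) := (pow_succ _ _).symm

/-- Probability measures on `V` supported in the ball of radius `S` around `x`. -/
def Sx (G : SimpleGraph V) (x : V) (S : ℕ) : Set (lp (fun _ : V => ℝ) 1) :=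
  {ξ | (∀ v, 0 ≤ ξ v) ∧ HasSum (fun v => ξ v) 1 ∧ ∀ v, S < G.dist x v → ξ v = 0}

theorem Sx_convex (x : V) (S : ℕ) : Convex ℝ (Sx G x S) := by
  rintro ξ ⟨h1, h2, h3⟩ η ⟨k1, k2, k3⟩ a b ha hb hab
  refine ⟨fun v => ?_, ?_, fun v hv => ?_⟩
  · simp only [lp.coeFn_add, lp.coeFn_smul, Pi.add_apply, Pi.smul_apply, smul_eq_mul]
    exact add_nonneg (mul_nonneg ha (h1 v)) (mul_nonneg hb (k1 v))
  · have := (h2.mul_left a).add (k2.mul_left b)
    simpa only [lp.coeFn_add, lp.coeFn_smul, Pi.add_apply, Pi.smul_apply, smul_eq_mul, mul_one,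
      hab] using this
  · simp only [lp.coeFn_add, lp.coeFn_smul, Pi.add_apply, Pi.smul_apply, smul_eq_mul, h3 v hv,
      k3 v hv, mul_zero, add_zero]

open Classical in
/-- The point mass. -/
noncomputable def dl (v : V) : lp (fun _ : V => ℝ) 1 := lp.single 1 v (1 : ℝ)

theorem dl_norm (v : V) : ‖dl v‖ ≤ 1 := by
  classical
  unfold dl
  rw [lp.norm_single (by norm_num)]
  simp

theorem dl_mem {x v : V} {S : ℕ} (h : G.dist x v ≤ S) : dl v ∈ Sx G x S := by
  classical
  have happ : ∀ w, dl v w = if w = v then (1 : ℝ) else 0 := by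
    intro w
    unfold dl
    rw [lp.coeFn_single]
    by_cases hw : w = v
    · subst hw
      simp
    · simp [hw]
  refine ⟨fun w => ?_, ?_, fun w hw => ?_⟩
  · rw [happ]
    split_ifs <;> norm_num
  · simp only [happ]
    exact hasSum_ite_eq v 1
  · rw [happ, if_neg]
    rintro rfl
    omega

theorem dist_phi (hG : Br G) (hf : ∀ v, (G.neighborSet v).Finite) (o v : V) :
    G.dist v (phi G o v) ≤ 2 := by
  rcases Nat.lt_or_ge (G.dist o v) 2 with h | h
  · rw [hG.phi_low (by omega), SimpleGraph.dist_comm]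
    omega
  · obtain ⟨h1, h2⟩ := hG.phi_spec hf h
    have h3 := hG.fth_adj (o := o) (v := v) (by omega)
    have h4 := hG.fth_lev o v
    have h5 := hG.one (h2 _ h3 (by omega)).symm
    have h6 := hG.one h3.symm
    have h7 := hG.tri v (fth G o v) (phi G o v)
    omega

theorem dist_fth (hG : Br G) (o v : V) : G.dist v (fth G o v) ≤ 1 := by
  rcases Nat.eq_zero_or_pos (G.dist o v) with h | h
  · rw [hG.fth_zero h, dist_self]
    omega
  · exact (hG.one (hG.fth_adj h).symm).le

/-- The total distance of pairs of one level. -/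
noncomputable def DN (G : SimpleGraph V) (o : V) (B : Finset V) (F : V → V) : ℕ :=
  ∑ p ∈ B, ∑ q ∈ B, if G.dist o p = G.dist o q then G.dist (F p) (F q) else 0

theorem DN_le {o : V} {B : Finset V} {F F' : V → V}
    (h : ∀ p q, G.dist (F' p) (F' q) ≤ G.dist (F p) (F q)) : DN G o B F' ≤ DN G o B F := by
  unfold DN
  refine Finset.sum_le_sum fun p _ => Finset.sum_le_sum fun q _ => ?_
  split_ifs
  · exact h p q
  · exact le_rfl

theorem DN_eq {o : V} {B : Finset V} {F F' : V → V}
    (h : ∀ p q, G.dist (F' p) (F' q) ≤ G.dist (F p) (F q)) (he : DN G o B F' = DN G o B F) :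
    ∀ p ∈ B, ∀ q ∈ B, G.dist o p = G.dist o q → G.dist (F' p) (F' q) = G.dist (F p) (F q) := by
  intro p hp q hq hpq
  unfold DN at he
  have h1 : ∀ p ∈ B, (∑ q ∈ B, if G.dist o p = G.dist o q then G.dist (F' p) (F' q) else 0) ≤
      ∑ q ∈ B, if G.dist o p = G.dist o q then G.dist (F p) (F q) else 0 := by
    intro p _
    refine Finset.sum_le_sum fun q _ => ?_
    split_ifs
    · exact h p q
    · exact le_rfl
  have h2 := (Finset.sum_eq_sum_iff_of_le h1).1 he p hp
  have h3 : ∀ q ∈ B, (if G.dist o p = G.dist o q then G.dist (F' p) (F' q) else 0) ≤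
      if G.dist o p = G.dist o q then G.dist (F p) (F q) else 0 := by
    intro q _
    split_ifs
    · exact h p q
    · exact le_rfl
  have h4 := (Finset.sum_eq_sum_iff_of_le h3).1 h2 q hq
  rw [if_pos hpq, if_pos hpq] at h4
  exact h4

open Classical in
/-- The indicator of a loss of distance under one of the two maps. -/
noncomputable def bad (G : SimpleGraph V) (o : V) (B : Finset V) (F : V → V) : ℝ :=
  if DN G o B (al G o ∘ F) + DN G o B (be G o ∘ F) < 2 * DN G o B F then 1 else 0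

namespace Br

theorem al_lip (hG : Br G) (hf : ∀ v, (G.neighborSet v).Finite) (o u v : V) :
    G.dist (al G o u) (al G o v) ≤ G.dist u v :=
  (hG.phi_lip hf o _ _).trans (hG.phi_lip hf o _ _)

theorem be_lip (hG : Br G) (hf : ∀ v, (G.neighborSet v).Finite) (o u v : V) :
    G.dist (be G o u) (be G o v) ≤ G.dist u v :=
  (hG.fth_lip o _ _).trans (hG.phi_lip hf o _ _)

theorem bad_drop (hG : Br G) (hf : ∀ v, (G.neighborSet v).Finite) (o : V) (B : Finset V)
    (F : V → V) : bad G o B F + (DN G o B (al G o ∘ F) : ℝ) + (DN G o B (be G o ∘ F) : ℝ) ≤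
      2 * (DN G o B F : ℝ) := by
  have h1 : DN G o B (al G o ∘ F) ≤ DN G o B F := DN_le fun p q => hG.al_lip hf o _ _
  have h2 : DN G o B (be G o ∘ F) ≤ DN G o B F := DN_le fun p q => hG.be_lip hf o _ _
  unfold bad
  split_ifs with h
  · have h3 : DN G o B (al G o ∘ F) + DN G o B (be G o ∘ F) + 1 ≤ 2 * DN G o B F := h
    have h4 : ((DN G o B (al G o ∘ F) + DN G o B (be G o ∘ F) + 1 : ℕ) : ℝ) ≤
        ((2 * DN G o B F : ℕ) : ℝ) := by exact_mod_cast h3
    push_cast at h4
    linarith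
  · have h3 : ((DN G o B (al G o ∘ F) + DN G o B (be G o ∘ F) : ℕ) : ℝ) ≤
        ((2 * DN G o B F : ℕ) : ℝ) := by exact_mod_cast (by omega)
    push_cast at h3
    linarith

/-- The good case: a polynomial bound. -/
theorem good_card (hG : Br G) (hf : ∀ v, (G.neighborSet v).Finite) {o x : V} {R Δ : ℕ}
    (hΔ : ∀ (v : V) (T : Finset V), (∀ t ∈ T, G.dist v t ≤ 1) → T.card ≤ Δ)
    {B : Finset V} (hB : ∀ q, q ∈ B ↔ G.dist x q ≤ R) {F : V → V}
    (hF1 : ∀ p q, G.dist (F p) (F q) ≤ G.dist p q)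
    (hF2 : ∀ p q, G.dist o p = G.dist o q → G.dist o (F p) = G.dist o (F q))
    (hgood : bad G o B F = 0) [DecidableEq V] :
    (B.image F).card ≤ (2 * R + 1) * (Δ * (2 * R + 1)) := by
  classical
  have h1 : DN G o B (al G o ∘ F) ≤ DN G o B F := DN_le fun p q => hG.al_lip hf o _ _
  have h2 : DN G o B (be G o ∘ F) ≤ DN G o B F := DN_le fun p q => hG.be_lip hf o _ _
  have h3 : ¬ (DN G o B (al G o ∘ F) + DN G o B (be G o ∘ F) < 2 * DN G o B F) := by
    intro h
    unfold bad at hgood
    rw [if_pos h] at hgood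
    norm_num at hgood
  have ha := DN_eq (G := G) (o := o) (B := B) (F := F) (F' := al G o ∘ F)
    (fun p q => hG.al_lip hf o _ _) (by omega)
  have hb := DN_eq (G := G) (o := o) (B := B) (F := F) (F' := be G o ∘ F)
    (fun p q => hG.be_lip hf o _ _) (by omega)
  let J : Finset ℕ := Finset.Icc (G.dist o x - R) (G.dist o x + R)
  have hJ : J.card ≤ 2 * R + 1 := by
    simp only [J, Nat.card_Icc]
    omega
  have hsub : B.image F ⊆ J.biUnion fun j => (B.filter fun p => G.dist o p = j).image F := by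
    intro w hw
    rw [Finset.mem_image] at hw
    obtain ⟨p, hp, rfl⟩ := hw
    rw [Finset.mem_biUnion]
    refine ⟨G.dist o p, ?_, ?_⟩
    · have h4 := (hB p).1 hp
      have h5 := hG.tri o x p
      have h6 := hG.tri o p x
      rw [SimpleGraph.dist_comm (u := p) (v := x)] at h6
      simp only [J, Finset.mem_Icc]
      omega
    · rw [Finset.mem_image]
      exact ⟨p, by rw [Finset.mem_filter]; exact ⟨hp, rfl⟩, rfl⟩
  refine (Finset.card_le_card hsub).trans ((Finset.card_biUnion_le_card_mul _ _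
    (Δ * (2 * R + 1)) ?_).trans (Nat.mul_le_mul_right _ hJ))
  intro j _
  rcases (B.filter fun p => G.dist o p = j).eq_empty_or_nonempty with h | ⟨p0, hp0⟩
  · rw [h]
    simp
  · rw [Finset.mem_filter] at hp0
    refine hG.card_le hf (o := o) (k := G.dist o (F p0)) _ ?_ ?_ ?_ ?_ hΔ
    · intro q hq
      rw [Finset.mem_image] at hq
      obtain ⟨p, hp, rfl⟩ := hq
      rw [Finset.mem_filter] at hp
      exact hF2 _ _ (by rw [hp.2, hp0.2])
    · intro p hp q hq
      rw [Finset.mem_image] at hp hq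
      obtain ⟨p', hp', rfl⟩ := hp
      obtain ⟨q', hq', rfl⟩ := hq
      rw [Finset.mem_filter] at hp' hq'
      exact ha p' hp'.1 q' hq'.1 (by rw [hp'.2, hq'.2])
    · intro p hp q hq
      rw [Finset.mem_image] at hp hq
      obtain ⟨p', hp', rfl⟩ := hp
      obtain ⟨q', hq', rfl⟩ := hq
      rw [Finset.mem_filter] at hp' hq'
      exact hb p' hp'.1 q' hq'.1 (by rw [hp'.2, hq'.2])
    · intro p hp q hq
      rw [Finset.mem_image] at hp hq
      obtain ⟨p', hp', rfl⟩ := hp
      obtain ⟨q', hq', rfl⟩ := hq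
      rw [Finset.mem_filter] at hp' hq'
      have h4 := (hB p').1 hp'.1
      have h5 := (hB q').1 hq'.1
      have h6 := hG.tri p' x q'
      rw [SimpleGraph.dist_comm (u := p') (v := x)] at h6
      have h7 := hF1 p' q'
      omega

end Br

end Pool.Agent.Helper556_sys
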