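import Pool.Agent.Helper556_sys.PropA

/-!
# Bridged graphs of bounded degree: almost invariant probability measures, conclusion
-/

namespace Pool.Agent.Helper556_sys

open SimpleGraph

variable {V : Type*} {G : SimpleGraph V}

theorem exists_K {Δ : ℕ} (hΔ : 1 ≤ Δ) {ε : ℝ} (hε : 0 < ε) :
    ∃ K : ℕ, 0 < K ∧
      8 / (K : ℝ) * Real.log (((2 * (K + 1) + 1) * (Δ * (2 * (K + 1) + 1)) : ℕ) : ℝ) ≤ ε / 2 := by
  obtain ⟨n0, hn0⟩ := exists_nat_gt (2 * (8 * Real.log Δ + 64) / ε)
  obtain ⟨n, hn, hn2⟩ : ∃ n : ℕ, 2 * (8 * Real.log Δ + 64) / ε ≤ n ∧ 2 ≤ n :=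
    ⟨n0 + 2, by push_cast; linarith, by omega⟩
  have hnpos : (0 : ℝ) < n := by
    have : 0 < n := by omega
    exact_mod_cast this
  have hn2' : (2 : ℝ) ≤ n := by exact_mod_cast hn2
  refine ⟨n ^ 2, by positivity, ?_⟩
  have hΔpos : (0 : ℝ) < Δ := by exact_mod_cast hΔ
  have hlogΔ : 0 ≤ Real.log Δ := Real.log_natCast_nonneg Δ
  have h1 : (((2 * (n ^ 2 + 1) + 1) * (Δ * (2 * (n ^ 2 + 1) + 1)) : ℕ) : ℝ) ≤
      Δ * (2 * (n : ℝ)) ^ 4 := by
    have h2 : 2 * (n ^ 2 + 1) + 1 ≤ (2 * n) ^ 2 := by nlinarith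
    have h3 : (2 * (n ^ 2 + 1) + 1) * (Δ * (2 * (n ^ 2 + 1) + 1)) ≤ Δ * (2 * n) ^ 4 := by
      calc (2 * (n ^ 2 + 1) + 1) * (Δ * (2 * (n ^ 2 + 1) + 1))
          ≤ (2 * n) ^ 2 * (Δ * (2 * n) ^ 2) := by gcongr
        _ = Δ * (2 * n) ^ 4 := by ring
    exact_mod_cast h3
  have hPpos : (0 : ℝ) < (((2 * (n ^ 2 + 1) + 1) * (Δ * (2 * (n ^ 2 + 1) + 1)) : ℕ) : ℝ) := by
    have : 0 < (2 * (n ^ 2 + 1) + 1) * (Δ * (2 * (n ^ 2 + 1) + 1)) := by positivity
    exact_mod_cast this
  have h2 := Real.log_le_log hPpos h1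
  rw [Real.log_mul hΔpos.ne' (by positivity), Real.log_pow] at h2
  have h3 := Real.log_le_sub_one_of_pos (show (0 : ℝ) < 2 * n by positivity)
  have h4 : Real.log (((2 * (n ^ 2 + 1) + 1) * (Δ * (2 * (n ^ 2 + 1) + 1)) : ℕ) : ℝ) ≤
      Real.log Δ + 8 * n := by
    push_cast at h2 ⊢
    linarith
  rw [div_le_iff₀ hε] at hn
  have hcast : (((n ^ 2 : ℕ)) : ℝ) = (n : ℝ) ^ 2 := by push_cast; ring
  rw [hcast]
  calc 8 / (n : ℝ) ^ 2 * Real.log (((2 * (n ^ 2 + 1) + 1) * (Δ * (2 * (n ^ 2 + 1) + 1)) : ℕ) : ℝ)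
      ≤ 8 / (n : ℝ) ^ 2 * (Real.log Δ + 8 * n) := by gcongr
    _ ≤ ε / 2 := by
      rw [div_mul_eq_mul_div, div_le_div_iff₀ (by positivity) (by norm_num)]
      have h5 : 8 * (Real.log Δ + 8 * n) ≤ (8 * Real.log Δ + 64) * n := by nlinarith
      nlinarith

theorem almost_inv (hG : Br G) {Δ : ℕ}
    (hΔ : ∀ (v : V) (T : Finset V), (∀ t ∈ T, G.dist v t ≤ 1) → T.card ≤ Δ)
    {ε : ℝ} (hε : 0 < ε) :
    ∃ S : ℕ, ∃ ξ : V → lp (fun _ : V => ℝ) 1, (∀ x, ξ x ∈ Sx G x S) ∧
      ∀ x y, G.Adj x y → ‖ξ x - ξ y‖ ≤ ε := by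
  classical
  obtain ⟨o⟩ := hG.conn.nonempty
  choose bl hbl1 hbl2 using fun x k => ball_finset hG.conn hΔ x k
  have hf : ∀ v, (G.neighborSet v).Finite := by
    intro v
    refine (bl v 1).finite_toSet.subset fun w hw => ?_
    have h1 : G.Adj v w := hw
    exact (hbl1 v 1 w).2 (dist_eq_one_iff_adj.2 h1).le
  have hΔ1 : 1 ≤ Δ := by
    have := hΔ o {o} (by
      intro t ht
      rw [Finset.mem_singleton] at ht
      rw [ht, dist_self]
      omega)
    simpa using this
  obtain ⟨K, hK, hKε⟩ := exists_K hΔ1 hε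
  set c0 : ℝ := 8 / (K : ℝ) *
    Real.log (((2 * (K + 1) + 1) * (Δ * (2 * (K + 1) + 1)) : ℕ) : ℝ) with hc0
  have hKpos : (0 : ℝ) < K := by exact_mod_cast hK
  have hc0nn : 0 ≤ c0 := by
    have := Real.log_natCast_nonneg ((2 * (K + 1) + 1) * (Δ * (2 * (K + 1) + 1)))
    positivity
  set D0 : ℕ := Δ ^ (K + 1) * (Δ ^ (K + 1) * (2 * (K + 1))) with hD0
  obtain ⟨M0, hM0⟩ := exists_nat_gt (8 * (D0 : ℝ) / ε)
  set M : ℕ := M0 + 1 with hM
  have hMpos : (0 : ℝ) < M := by
    rw [hM]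
    positivity
  have hMD : 8 * (D0 : ℝ) ≤ M * ε := by
    rw [div_lt_iff₀ hε] at hM0
    have : (M : ℝ) = M0 + 1 := by rw [hM]; push_cast; ring
    rw [this]
    nlinarith
  let a : V → V := al G o
  let b : V → V := be G o
  let P : (V → V) → Prop := fun F => (∀ p q, G.dist (F p) (F q) ≤ G.dist p q) ∧
    (∀ p q, G.dist o p = G.dist o q → G.dist o (F p) = G.dist o (F q))
  have hP : ∀ F, P F → P (a ∘ F) ∧ P (b ∘ F) := by
    rintro F ⟨h1, h2⟩
    refine ⟨⟨fun p q => (hG.al_lip hf o _ _).trans (h1 p q), fun p q hpq => ?_⟩,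
      ⟨fun p q => (hG.be_lip hf o _ _).trans (h1 p q), fun p q hpq => ?_⟩⟩
    · show G.dist o (phi G o (phi G o (F p))) = G.dist o (phi G o (phi G o (F q)))
      rw [hG.phi_lev hf, hG.phi_lev hf, hG.phi_lev hf, hG.phi_lev hf, h2 p q hpq]
    · show G.dist o (fth G o (phi G o (F p))) = G.dist o (fth G o (phi G o (F q)))
      rw [hG.fth_lev, hG.phi_lev hf, hG.fth_lev, hG.phi_lev hf, h2 p q hpq]
  let Q : ℕ → (V → V) → Prop := fun n F => ∀ p, G.dist p (F p) ≤ 4 * n
  have hQ : ∀ n F, Q n F → Q (n + 1) (a ∘ F) ∧ Q (n + 1) (b ∘ F) := by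
    intro n F h1
    refine ⟨fun p => ?_, fun p => ?_⟩
    · show G.dist p (phi G o (phi G o (F p))) ≤ 4 * (n + 1)
      have h2 := h1 p
      have h3 := dist_phi hG hf o (F p)
      have h4 := dist_phi hG hf o (phi G o (F p))
      have h5 := hG.tri p (F p) (phi G o (F p))
      have h6 := hG.tri p (phi G o (F p)) (phi G o (phi G o (F p)))
      omega
    · show G.dist p (fth G o (phi G o (F p))) ≤ 4 * (n + 1)
      have h2 := h1 p
      have h3 := dist_phi hG hf o (F p)
      have h4 := dist_fth hG o (phi G o (F p))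
      have h5 := hG.tri p (F p) (phi G o (F p))
      have h6 := hG.tri p (phi G o (F p)) (fth G o (phi G o (F p)))
      omega
  let A : V → (V → V) → ℕ → Finset V := fun x F k => (bl x k).image F
  let g : V → (V → V) → lp (fun _ : V => ℝ) 1 := fun x F => av dl (A x F) K
  have hAne : ∀ x F k, (A x F k).Nonempty := by
    intro x F k
    exact Finset.Nonempty.image ⟨x, (hbl1 x k x).2 (by rw [dist_self]; omega)⟩ F
  -- membership
  have hgmem : ∀ x n F, n ≤ M → Q n F → g x F ∈ Sx G x (K + 4 * M) := by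
    intro x n F hn hF
    refine av_mem (Sx_convex x _) hK fun i hi => mu_mem (Sx_convex x _) (hAne x F _) ?_
    intro v hv
    rw [Finset.mem_image] at hv
    obtain ⟨p, hp, rfl⟩ := hv
    rw [hbl1] at hp
    apply dl_mem
    have h1 := hF p
    have h2 := hG.tri x p (F p)
    have h3 : 4 * n ≤ 4 * M := by omega
    omega
  let ξ : V → lp (fun _ : V => ℝ) 1 := fun x =>
    (M : ℝ)⁻¹ • ∑ t ∈ Finset.range M, Ex a b (g x) t id
  refine ⟨K + 4 * M, ξ, fun x => ?_, fun x y hxy => ?_⟩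
  · show (M : ℝ)⁻¹ • ∑ t ∈ Finset.range M, Ex a b (g x) t id ∈ Sx G x (K + 4 * M)
    rw [Finset.smul_sum]
    refine (Sx_convex x _).sum_mem (fun _ _ => (inv_pos.2 hMpos).le) ?_ fun t ht => ?_
    · rw [Finset.sum_const, nsmul_eq_mul, Finset.card_range, mul_inv_cancel₀ hMpos.ne']
    · rw [Finset.mem_range] at ht
      refine Ex_mem (Sx_convex x _) hQ (m := M) (fun n F hn hF => hgmem x n F hn hF) t 0 id
        (by omega) ?_
      intro p
      show G.dist p (id p) ≤ 4 * 0
      simp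
  · -- variation
    have hstep : ∀ F, P F → ‖g x F - g y F‖ ≤ c0 + 2 * bad G o (bl x (K + 1)) F := by
      intro F hF
      by_cases hbad : bad G o (bl x (K + 1)) F = 0
      · rw [hbad, mul_zero, add_zero]
        have hsub : ∀ u w : V, G.Adj u w → ∀ k, A u F k ⊆ A w F (k + 1) := by
          intro u w huw k
          refine Finset.image_subset_image fun q hq => ?_
          rw [hbl1] at hq ⊢
          have h1 := hG.tri w u q
          have h2 := hG.one huw.symm
          omega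
        have hmono : ∀ k, A x F k ⊆ A x F (k + 1) := by
          intro k
          refine Finset.image_subset_image fun q hq => ?_
          rw [hbl1] at hq ⊢
          omega
        have h1 := av_sub_le (δ := dl) dl_norm (A := A x F) (B := A y F) hK (hAne x F 0) hmono
          (hsub x y hxy) (hsub y x hxy.symm)
        refine h1.trans ?_
        have h2 := hG.good_card hf hΔ (hbl1 x (K + 1)) hF.1 hF.2 hbad
        have h3 : (0 : ℝ) < (A x F (K + 1)).card := by
          exact_mod_cast (hAne x F (K + 1)).card_pos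
        have h4 : ((A x F (K + 1)).card : ℝ) ≤
            (((2 * (K + 1) + 1) * (Δ * (2 * (K + 1) + 1)) : ℕ) : ℝ) := by exact_mod_cast h2
        have h5 := Real.log_le_log h3 h4
        rw [hc0]
        gcongr
      · have hb1 : bad G o (bl x (K + 1)) F = 1 := by
          unfold bad at hbad ⊢
          split_ifs at hbad ⊢ with h
          · rfl
          · exact absurd rfl hbad
        have hn : ∀ z, ‖g z F‖ ≤ 1 := by
          intro z
          have hconv := norm_le_one_convex (E := lp (fun _ : V => ℝ) 1)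
          exact av_mem hconv hK fun i _ => mu_mem hconv (hAne z F _) fun v _ => dl_norm v
        have h1 := norm_sub_le (g x F) (g y F)
        have h2 := hn x
        have h3 := hn y
        rw [hb1]
        linarith
    have hPid : P id := ⟨fun p q => le_rfl, fun p q h => h⟩
    have hex : ∀ t, ‖Ex a b (g x) t id - Ex a b (g y) t id‖ ≤
        c0 + 2 * Ex a b (bad G o (bl x (K + 1))) t id := by
      intro t
      have h1 := Ex_norm_le hP hstep t id hPid
      rwa [Ex_affine] at h1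
    have hsum := Ex_sum_le (a := a) (b := b) (bad := bad G o (bl x (K + 1)))
      (D := fun F => (DN G o (bl x (K + 1)) F : ℝ)) (fun F => Nat.cast_nonneg _)
      (fun F => hG.bad_drop hf o _ F) M id
    have hDN : DN G o (bl x (K + 1)) id ≤ D0 := by
      unfold DN
      have hin : ∀ p ∈ bl x (K + 1), ∀ q ∈ bl x (K + 1),
          (if G.dist o p = G.dist o q then G.dist (id p) (id q) else 0) ≤ 2 * (K + 1) := by
        intro p hp q hq
        rw [hbl1] at hp hq
        split_ifs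
        · have h1 := hG.tri p x q
          rw [SimpleGraph.dist_comm (u := p) (v := x)] at h1
          simp only [id]
          omega
        · omega
      calc (∑ p ∈ bl x (K + 1), ∑ q ∈ bl x (K + 1),
            if G.dist o p = G.dist o q then G.dist (id p) (id q) else 0)
          ≤ ∑ p ∈ bl x (K + 1), ∑ q ∈ bl x (K + 1), 2 * (K + 1) :=
            Finset.sum_le_sum fun p hp => Finset.sum_le_sum fun q hq => hin p hp q hq
        _ = (bl x (K + 1)).card * ((bl x (K + 1)).card * (2 * (K + 1))) := by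
            simp [Finset.sum_const]
        _ ≤ D0 := by
            rw [hD0]
            have := hbl2 x (K + 1)
            gcongr
    have hDN' : (DN G o (bl x (K + 1)) id : ℝ) ≤ D0 := by exact_mod_cast hDN
    show ‖(M : ℝ)⁻¹ • ∑ t ∈ Finset.range M, Ex a b (g x) t id -
      (M : ℝ)⁻¹ • ∑ t ∈ Finset.range M, Ex a b (g y) t id‖ ≤ ε
    rw [← smul_sub, ← Finset.sum_sub_distrib, norm_smul, norm_inv, Real.norm_of_nonneg hMpos.le]
    have h1 : ‖∑ t ∈ Finset.range M, (Ex a b (g x) t id - Ex a b (g y) t id)‖ ≤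
        M * c0 + 4 * D0 := by
      calc ‖∑ t ∈ Finset.range M, (Ex a b (g x) t id - Ex a b (g y) t id)‖
          ≤ ∑ t ∈ Finset.range M, (c0 + 2 * Ex a b (bad G o (bl x (K + 1))) t id) :=
            (norm_sum_le _ _).trans (Finset.sum_le_sum fun t _ => hex t)
        _ = M * c0 + 2 * ∑ t ∈ Finset.range M, Ex a b (bad G o (bl x (K + 1))) t id := by
            rw [Finset.sum_add_distrib, Finset.sum_const, Finset.card_range, nsmul_eq_mul,
              Finset.mul_sum]
        _ ≤ M * c0 + 4 * D0 := by linarith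
    rw [inv_mul_le_iff₀ hMpos]
    refine h1.trans ?_
    nlinarith

end Pool.Agent.Helper556_sys
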