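import Pool.Agent.Helper556_sys.Final

/-!
# Property A of the path metric of a graph
-/

namespace Pool.Agent.Helper556_sys

open SimpleGraph

/-- Yu's Property A for the path metric of the graph `G` on its vertex set `V`: for all `R, ε > 0`
there are `S > 0` and unit vectors `ξ y` of `ℓ¹(V)`, supported in the ball of radius `S` around
`y`, with `‖ξ y - ξ z‖₁ ≤ ε` whenever `d(y, z) ≤ R`. -/
def PropertyA {V : Type*} (G : SimpleGraph V) : Prop :=
  ∀ R ε : ℝ, 0 < R → 0 < ε → ∃ S : ℝ, 0 < S ∧ ∃ ξ : V → lp (fun _ : V => ℝ) 1,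
    (∀ y, ‖ξ y‖ = 1) ∧ (∀ y z, ξ y z ≠ 0 → (G.dist y z : ℝ) ≤ S) ∧
    ∀ y z, (G.dist y z : ℝ) ≤ R → ‖ξ y - ξ z‖ ≤ ε

theorem propertyA_of_measures {V : Type*} {G : SimpleGraph V} (hc : G.Connected)
    (hA : ∀ ε : ℝ, 0 < ε → ∃ S : ℕ, ∃ ξ : V → lp (fun _ : V => ℝ) 1, (∀ x, ξ x ∈ Sx G x S) ∧
      ∀ x y, G.Adj x y → ‖ξ x - ξ y‖ ≤ ε) : PropertyA G := by
  intro R ε hR hε
  obtain ⟨S, ξ, h1, h2⟩ := hA (ε / (R + 1)) (by positivity)
  have hvar : ∀ (k : ℕ) (x y : V), G.dist x y = k → ‖ξ x - ξ y‖ ≤ k * (ε / (R + 1)) := by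
    intro k
    induction k with
    | zero =>
      intro x y h
      rw [hc.dist_eq_zero_iff.1 h]
      simp
    | succ k ih =>
      intro x y h
      obtain ⟨u, hu1, hu2⟩ := Pool.Agent.Q255.Bridged.exists_parent (G := G) (z := x) (v := y)
        (k := k) h
      have h3 := ih x u hu2
      have h4 := h2 u y hu1
      have h5 : ‖ξ x - ξ y‖ ≤ ‖ξ x - ξ u‖ + ‖ξ u - ξ y‖ := norm_sub_le_norm_sub_add_norm_sub _ _ _
      push_cast
      linarith
  refine ⟨S + 1, by positivity, ξ, fun y => ?_, fun y z hyz => ?_, fun y z hyz => ?_⟩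
  · have h3 := hasSum_norm_one (ξ y)
    have h4 : (fun v => |ξ y v|) = fun v => ξ y v := by
      funext v
      exact abs_of_nonneg ((h1 y).1 v)
    rw [h4] at h3
    exact h3.unique (h1 y).2.1
  · by_contra hcon
    push Not at hcon
    refine hyz ((h1 y).2.2 z ?_)
    have h3 : (S : ℝ) < G.dist y z := by linarith
    exact_mod_cast h3
  · have h3 := hvar _ y z rfl
    have h4 : (G.dist y z : ℝ) * (ε / (R + 1)) ≤ R * (ε / (R + 1)) := by gcongr
    have h5 : R * (ε / (R + 1)) ≤ ε := by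
      rw [mul_div_assoc', div_le_iff₀ (by positivity)]
      nlinarith
    linarith

/-- Bridged graphs of bounded degree have Property A. -/
theorem propertyA_of_br {V : Type*} {G : SimpleGraph V} (hG : Br G) {Δ : ℕ}
    (hΔ : ∀ (v : V) (T : Finset V), (∀ t ∈ T, G.dist v t ≤ 1) → T.card ≤ Δ) : PropertyA G :=
  propertyA_of_measures hG.conn fun _ hε => almost_inv hG hΔ hε

end Pool.Agent.Helper556_sys
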