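import Pool.Agent.Helper556_sys.Flow

/-!
# Bridged graphs: sets on which the flows are isometric are almost linear
-/

namespace Pool.Agent.Helper556_sys

open SimpleGraph Pool.Agent.Q255.Bridged

variable {V : Type*} {G : SimpleGraph V}

namespace Br

/-- A short map which preserves the distance of the ends of a geodesic preserves the distances of
points on the geodesic. -/
theorem iso_sub (hG : Br G) {g : V → V} (hg : ∀ u v, G.dist (g u) (g v) ≤ G.dist u v)
    {y a b y' : V} (h : G.dist (g y) (g y') = G.dist y y')
    (hab : G.dist y a + G.dist a b + G.dist b y' = G.dist y y') :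
    G.dist (g a) (g b) = G.dist a b := by
  have h1 := hg y a
  have h2 := hg a b
  have h3 := hg b y'
  have h4 := hG.tri (g y) (g a) (g y')
  have h5 := hG.tri (g a) (g b) (g y')
  omega

/-- If `phi` preserves the distance of two vertices of one level, then the interval between them
lies on this level. -/
theorem horiz (hG : Br G) (hf : ∀ v, (G.neighborSet v).Finite) {o y y' c : V}
    (hl : G.dist o y = G.dist o y') (hi : G.dist (phi G o y) (phi G o y') = G.dist y y')
    (hc : G.dist y c + G.dist c y' = G.dist y y') : G.dist o c = G.dist o y := by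
  have h1 := hG.conv o hc
  rw [← hl, max_self] at h1
  by_contra hne
  have hlt : G.dist o c < G.dist o y := by omega
  obtain ⟨z, hz1, hz2, hz3⟩ := hG.down _ o y c rfl hlt
  obtain ⟨z', hz1', hz2', hz3'⟩ := hG.down _ o y' c rfl (by omega)
  rcases Nat.lt_or_ge (G.dist o y) 2 with h2 | h2
  · rw [hG.phi_low (by omega), hG.phi_low (by omega), dist_self] at hi
    omega
  · obtain ⟨s1, s2⟩ := hG.phi_spec hf h2
    obtain ⟨t1, t2⟩ := hG.phi_spec hf (o := o) (v := y') (by omega)
    have s3 := hG.one (s2 z hz1 hz2)
    have t3 := hG.one (t2 z' hz1' hz2')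
    have c1 := SimpleGraph.dist_comm (G := G) (u := phi G o y') (v := z')
    have c2 := SimpleGraph.dist_comm (G := G) (u := c) (v := z')
    have c3 := SimpleGraph.dist_comm (G := G) (u := c) (v := y')
    have h3 := hG.tri z c z'
    have h4 := hG.tri z z' (phi G o y')
    have h5 := hG.tri (phi G o y) z (phi G o y')
    have h6 := hG.conv o (v := phi G o y) (w := phi G o y') (c := z) (by omega)
    omega

/-- First half of the order lemma. -/
theorem ord1 (hG : Br G) (hf : ∀ v, (G.neighborSet v).Finite) {o : V} :
    ∀ (r : ℕ) (y y' u : V), G.dist y y' = r → G.dist o y = G.dist o y' →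
    G.dist (phi G o y) (phi G o y') = G.dist y y' → G.Adj y u →
    G.dist u y' + 1 = G.dist y y' → ¬ G.Adj (fth G o y) u →
    lt G o (G.dist o y) y y' := by
  intro r
  induction r with
  | zero =>
    intro y y' u hr _ _ _ h _
    omega
  | succ r ih =>
    intro y y' u hr hl hi hyu hu hn
    have hyu1 := hG.one hyu
    have hlu := hG.horiz hf hl hi (c := u) (by omega)
    have hord : lt G o (G.dist o y) y u := by
      rcases lt_tri (G := G) o (G.dist o y) y u with h | h | h
      · exact h
      · exact absurd h hyu.ne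
      · exact absurd (hG.dom hlu hyu.symm h).symm hn
    rcases Nat.eq_zero_or_pos r with h0 | h0
    · have : u = y' := hG.eq_zero (by omega)
      rw [← this]
      exact hord
    · obtain ⟨u2, h1, h2⟩ := hG.step (a := u) (b := y') (by omega)
      have h3 : G.dist (phi G o u) (phi G o y') = G.dist u y' :=
        hG.iso_sub (hG.phi_lip hf o) hi (a := u) (b := y') (by rw [dist_self]; omega)
      have hpos : 0 < G.dist o u := by
        rcases Nat.eq_zero_or_pos (G.dist o u) with h4 | h4
        · exact absurd ((hG.eq_zero (a := o) (b := y) (by omega)).symm.trans (hG.eq_zero h4))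
            hyu.ne
        · exact h4
      have hn2 : ¬ G.Adj (fth G o u) u2 := by
        intro h4
        have h5 := hG.dom (o := o) (u := y) (v := u) hlu.symm hyu (by rw [hlu]; exact hord)
        have h6 := hG.one h5
        have h7 := hG.one h4
        have h8 := hG.tri (fth G o u) u2 y'
        have h9 := hG.tri y (fth G o u) y'
        have h10 := hG.horiz hf hl hi (c := fth G o u) (by omega)
        have h11 := hG.fth_lev o u
        omega
      have h4 := ih u y' u2 (by omega) (by omega) h3 h1 h2 hn2
      rw [hlu] at h4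
      exact lt_trans' hord h4

/-- Lower neighbours of the ends of a horizontal geodesic. -/
theorem lower_dist (hG : Br G) (hf : ∀ v, (G.neighborSet v).Finite) {o : V} :
    ∀ (s : ℕ) (v w z z' : V), G.dist v w = s → G.dist o v = G.dist o w →
    G.dist (phi G o v) (phi G o w) = G.dist v w → G.Adj z v → G.Adj z' w →
    G.dist o z + 1 = G.dist o v → G.dist o z' + 1 = G.dist o w → G.dist z z' ≤ s + 1 := by
  intro s
  induction s with
  | zero =>
    intro v w z z' hs hl _ hz hz' h1 h2
    have := hG.eq_zero hs
    subst this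
    exact hG.low (o := o) hz.symm hz'.symm h1 h2
  | succ s ih =>
    intro v w z z' hs hl hi hz hz' h1 h2
    obtain ⟨v1, h3, h4⟩ := hG.step (a := v) (b := w) (by omega)
    have h5 := hG.one h3
    have hl1 := hG.horiz hf hl hi (c := v1) (by omega)
    obtain ⟨z1, hz1, hz1', hz1''⟩ := hG.tc o v v1 h3 hl1.symm
    have h6 := hG.low (o := o) hz.symm hz1.symm h1 hz1''
    have h7 : G.dist (phi G o v1) (phi G o w) = G.dist v1 w :=
      hG.iso_sub (hG.phi_lip hf o) hi (a := v1) (b := w) (by rw [dist_self]; omega)
    have h8 := ih v1 w z1 z' (by omega) (by omega) h7 hz1' hz' (by omega) h2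
    have h9 := hG.tri z z1 z'
    omega

/-- Second half of the order lemma. -/
theorem ord2 (hG : Br G) (hf : ∀ v, (G.neighborSet v).Finite) {o y y' u : V}
    (hl : G.dist o y = G.dist o y') (hi : G.dist (phi G o y) (phi G o y') = G.dist y y')
    (hi2 : G.dist (fth G o y) (fth G o y') = G.dist y y') (hyu : G.Adj y u)
    (hu : G.dist u y' + 1 = G.dist y y') (ho : lt G o (G.dist o y) y y') :
    ¬ G.Adj (fth G o y) u := by
  intro hfu
  have hyu1 := hG.one hyu
  have hlu := hG.horiz hf hl hi (c := u) (by omega)
  have hpos : 0 < G.dist o y := by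
    rcases Nat.eq_zero_or_pos (G.dist o y) with h4 | h4
    · exact absurd ((hG.eq_zero (a := o) (b := y) (by omega)).symm.trans
        (hG.eq_zero (a := o) (b := u) (by omega))) hyu.ne
    · exact h4
  have fy := hG.fth_lev o y
  have fy' := hG.fth_lev o y'
  have fa := hG.fth_adj (o := o) (v := y) hpos
  have fa' := hG.fth_adj (o := o) (v := y') (by omega)
  rcases Nat.eq_zero_or_pos (G.dist u y') with h0 | h0
  · have := hG.eq_zero h0
    subst this
    have h1 := hG.dom (o := o) hl hyu (by rw [← hl]; exact ho)
    have h2 := hG.fth_min (o := o) h1.symm (by omega)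
    have h3 := hG.fth_min (o := o) hfu (by omega)
    have hll : G.dist o (fth G o u) = G.dist o (fth G o y) := by omega
    rw [hll] at h2
    rcases lt_tri (G := G) o (G.dist o (fth G o y)) (fth G o y) (fth G o u) with h4 | h4 | h4
    · exact h3 h4
    · rw [h4, dist_self] at hi2
      omega
    · exact h2 h4
  · obtain ⟨u', h1, h2⟩ := hG.step (a := y') (b := u) (by rw [SimpleGraph.dist_comm]; exact h0)
    have h3 := hG.one h1
    have c1 := SimpleGraph.dist_comm (G := G) (u := y') (v := u)
    have c2 := SimpleGraph.dist_comm (G := G) (u := u') (v := u)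
    have c3 := SimpleGraph.dist_comm (G := G) (u := u') (v := y)
    have c4 := SimpleGraph.dist_comm (G := G) (u := y') (v := y)
    have c5 := SimpleGraph.dist_comm (G := G) (u := y') (v := u')
    have h4 := hG.tri u' u y
    have h5 := hG.tri y u' y'
    have c6 := SimpleGraph.dist_comm (G := G) (u := u) (v := y)
    have hadj : G.Adj (fth G o y') u' := by
      by_contra hcon
      have h6 := hG.ord1 hf (o := o) _ y' y u' rfl hl.symm
        (by rw [SimpleGraph.dist_comm, hi]; omega) h1 (by omega) hcon
      rw [← hl] at h6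
      exact lt_asymm' ho h6
    have hlu' := hG.horiz hf hl hi (c := u') (by omega)
    have h7 : G.dist (phi G o u) (phi G o u') = G.dist u u' :=
      hG.iso_sub (hG.phi_lip hf o) hi (a := u) (b := u') (by omega)
    have h8 := hG.lower_dist hf (o := o) _ u u' (fth G o y) (fth G o y') rfl (by omega) h7
      hfu hadj (by omega) (by omega)
    omega

/-- The middle one of three points is separated from the other two. -/
theorem sep_mid (hG : Br G) (hf : ∀ v, (G.neighborSet v).Finite) {o y a b : V}
    (hla : G.dist o y = G.dist o a) (hlb : G.dist o y = G.dist o b)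
    (ha : G.dist (phi G o y) (phi G o a) = G.dist y a)
    (hb : G.dist (phi G o y) (phi G o b) = G.dist y b)
    (hb' : G.dist (fth G o y) (fth G o b) = G.dist y b)
    (h1 : lt G o (G.dist o y) a y) (h2 : lt G o (G.dist o y) y b) : Sep G y a b := by
  intro u hyu hua hub
  have h3 : G.Adj (fth G o y) u := by
    by_contra hcon
    exact lt_asymm' h1 (hG.ord1 hf _ y a u rfl hla ha hyu hua hcon)
  exact hG.ord2 hf hlb hb hb' hyu hub h2 h3

/-- If the images are separated, then the three points are almost collinear. -/
theorem collinear (hG : Br G) (hf : ∀ v, (G.neighborSet v).Finite) {o y a b : V}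
    (hla : G.dist o y = G.dist o a) (hlb : G.dist o y = G.dist o b)
    (ha : G.dist (phi G o y) (phi G o a) = G.dist y a)
    (hb : G.dist (phi G o y) (phi G o b) = G.dist y b)
    (hs : Sep G (phi G o y) (phi G o a) (phi G o b)) :
    G.dist y a + G.dist y b ≤ G.dist a b + 1 := by
  by_contra hcon
  -- separation at time zero
  have hs0 : Sep G y a b := by
    intro u hyu hua hub
    have h1 := hG.one hyu
    have e1 : G.dist (phi G o y) (phi G o u) = G.dist y u :=
      hG.iso_sub (hG.phi_lip hf o) ha (a := y) (b := u) (by rw [dist_self]; omega)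
    have e2 : G.dist (phi G o u) (phi G o a) = G.dist u a :=
      hG.iso_sub (hG.phi_lip hf o) ha (a := u) (b := a) (by rw [dist_self]; omega)
    have e3 : G.dist (phi G o u) (phi G o b) = G.dist u b :=
      hG.iso_sub (hG.phi_lip hf o) hb (a := u) (b := b) (by rw [dist_self]; omega)
    exact hs (phi G o u) (dist_eq_one_iff_adj.1 (by omega)) (by omega) (by omega)
  obtain ⟨a', b', k1, k2, k3, k4, k5⟩ := hG.corner _ y a b rfl hs0 (by omega)
  have hs1 : Sep G y a' b' :=
    ((hs0.sub hG (a' := a') (by omega)).symm.sub hG (a' := b') (by omega)).symm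
  obtain ⟨m, u, v, hma, hmb, hmu, hmv, hyu, hyv, hua, hvb, huv⟩ := hG.flat hs1 k1 k3 k5
  have d1 := hG.one hma
  have d2 := hG.one hmb
  have d3 := hG.one hmu
  have d4 := hG.one hmv
  have d5 := hG.one hyu
  have d6 := hG.one hyv
  have d7 := hG.one hua
  have d8 := hG.one hvb
  have d9 := hG.one huv
  have t1 := hG.tri u a' a
  have t2 := hG.tri y u a
  have t3 := hG.tri v b' b
  have t4 := hG.tri y v b
  have lu := hG.horiz hf hla ha (c := u) (by omega)
  have la := hG.horiz hf hla ha (c := a') (by omega)
  have lv := hG.horiz hf hlb hb (c := v) (by omega)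
  have lb := hG.horiz hf hlb hb (c := b') (by omega)
  -- the level is at least two
  have hk : 2 ≤ G.dist o y := by
    by_contra hk
    rw [hG.phi_low (by omega), hG.phi_low (by omega), dist_self] at ha
    omega
  obtain ⟨k, hk'⟩ : ∃ k, G.dist o y = k + 2 := ⟨G.dist o y - 2, by omega⟩
  obtain ⟨sy1, sy2⟩ := hG.phi_spec hf (o := o) (v := y) hk
  obtain ⟨sa1, sa2⟩ := hG.phi_spec hf (o := o) (v := a') (by omega)
  obtain ⟨sb1, sb2⟩ := hG.phi_spec hf (o := o) (v := b') (by omega)
  have cyu := SimpleGraph.dist_comm (G := G) (u := u) (v := y)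
  have cyv := SimpleGraph.dist_comm (G := G) (u := v) (v := y)
  obtain ⟨zy, zy0, zy1, zy2, zy3⟩ := hG.common3 o (a := y) (b := u) (c := v) (k := k + 1)
    (by omega) (by omega) (by omega) (by omega) (by omega) (by omega)
  -- the two other lower neighbours
  have key : ∃ z1 z2, G.dist o z1 = k + 1 ∧ G.dist o z2 = k + 1 ∧ G.Adj z1 u ∧ G.Adj z1 a' ∧
      G.Adj z2 v ∧ G.Adj z2 b' ∧ G.dist z1 z2 ≤ 1 := by
    have l1 := hG.lip1 hma o
    have l2 := hG.lip2 hma o
    have cum := SimpleGraph.dist_comm (G := G) (u := u) (v := m)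
    have cvm := SimpleGraph.dist_comm (G := G) (u := v) (v := m)
    have cam := SimpleGraph.dist_comm (G := G) (u := a') (v := m)
    have cbm := SimpleGraph.dist_comm (G := G) (u := b') (v := m)
    have hcase : G.dist o m = k + 1 ∨ G.dist o m = k + 2 ∨ G.dist o m = k + 3 := by omega
    rcases hcase with hm | hm | hm
    · exact ⟨m, m, hm, hm, hmu, hma, hmv, hmb, by rw [dist_self]; omega⟩
    · obtain ⟨z1, p0, p1, p2, p3⟩ := hG.common3 o (a := u) (b := a') (c := m) (k := k + 1)
        (by omega) (by omega) (by omega) (by omega) (by omega) (by omega)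
      obtain ⟨z2, q0, q1, q2, q3⟩ := hG.common3 o (a := v) (b := b') (c := m) (k := k + 1)
        (by omega) (by omega) (by omega) (by omega) (by omega) (by omega)
      exact ⟨z1, z2, p0, q0, p1, p2, q1, q2,
        hG.low (o := o) (v := m) p3.symm q3.symm (by omega) (by omega)⟩
    · exfalso
      have := hG.low (o := o) (v := m) hma hmb (by omega) (by omega)
      omega
  obtain ⟨z1, z2, l1, l2, p1, p2, q1, q2, h12⟩ := key
  have hy1 := hG.low (o := o) (v := u) zy2.symm p1.symm (by omega) (by omega)
  have hy2 := hG.low (o := o) (v := v) zy3.symm q1.symm (by omega) (by omega)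
  obtain ⟨x, x0, x1, x2, x3⟩ := hG.common3 o (a := zy) (b := z1) (c := z2) (k := k)
    (by omega) (by omega) (by omega) hy1 hy2 h12
  have r1 := hG.low (o := o) (v := zy) (sy2 zy zy1 (by omega)).symm x1.symm (by omega) (by omega)
  have r2 := hG.low (o := o) (v := z1) (sa2 z1 p2 (by omega)).symm x2.symm (by omega) (by omega)
  have r3 := hG.low (o := o) (v := z2) (sb2 z2 q2 (by omega)).symm x3.symm (by omega) (by omega)
  have i1 : G.dist (phi G o y) (phi G o a') = G.dist y a' :=
    hG.iso_sub (hG.phi_lip hf o) ha (a := y) (b := a') (by rw [dist_self]; omega)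
  have i2 : G.dist (phi G o a') (phi G o a) = G.dist a' a :=
    hG.iso_sub (hG.phi_lip hf o) ha (a := a') (b := a) (by rw [dist_self]; omega)
  have i3 : G.dist (phi G o y) (phi G o b') = G.dist y b' :=
    hG.iso_sub (hG.phi_lip hf o) hb (a := y) (b := b') (by rw [dist_self]; omega)
  have i4 : G.dist (phi G o b') (phi G o b) = G.dist b' b :=
    hG.iso_sub (hG.phi_lip hf o) hb (a := b') (b := b) (by rw [dist_self]; omega)
  have c1 := SimpleGraph.dist_comm (G := G) (u := phi G o a') (v := x)
  have c2 := SimpleGraph.dist_comm (G := G) (u := phi G o b') (v := x)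
  have t5 := hG.tri (phi G o y) x (phi G o a')
  have t6 := hG.tri x (phi G o a') (phi G o a)
  have t7 := hG.tri (phi G o y) x (phi G o b')
  have t8 := hG.tri x (phi G o b') (phi G o b)
  have t9 := hG.tri (phi G o y) x (phi G o a)
  have t10 := hG.tri (phi G o y) x (phi G o b)
  exact hs x (dist_eq_one_iff_adj.1 (by omega)) (by omega) (by omega)

end Br

end Pool.Agent.Helper556_sys
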